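import Pool.Agent.EllPR.Code

/-!
# Primitive recursive complex numbers and effectively computable functions
-/

open Encodable

namespace Pool.Agent.EllPR

/-- `z` has good approximations by Gaussian rationals which are primitive recursive relative
to `O` -/
def IsPR (O : Set (ℕ → ℕ)) (z : ℂ) : Prop :=
  ∃ A : ℕ → T, PR O A ∧ ∀ n : ℕ, ‖z - val (A n)‖ ≤ 1 / ((n : ℝ) + 1)

/-- `f` is Lipschitz near `b`, and its values at Gaussian rational points near `b` are effectively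
computable -/
structure CA (O : Set (ℕ → ℕ)) {ι : Type} [Fintype ι] (f : (ι → ℂ) → ℂ) (b : ι → ℂ) : Prop where
  lip : ∃ r : ℝ, 0 < r ∧ ∃ K : ℝ, ∀ x y : ι → ℂ, ‖x - b‖ < r → ‖y - b‖ < r →
    ‖f x - f y‖ ≤ K * ‖x - y‖
  eff : ∃ r : ℝ, 0 < r ∧ ∃ (C : ℝ) (A : ℕ × Vec ι T → T), PR O A ∧ ∀ (n : ℕ) (x : Vec ι T),
    ‖vv x - b‖ < r → ‖f (vv x) - val (A (n, x))‖ ≤ C / ((n : ℝ) + 1)

variable {O : Set (ℕ → ℕ)} {ι : Type} [Fintype ι] {κ : Type} [Fintype κ]

theorem scale_bound {C : ℝ} {M : ℕ} (hM : C ≤ M) (n : ℕ) :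
    C / (((M * (n + 1) : ℕ) : ℝ) + 1) ≤ 1 / ((n : ℝ) + 1) := by
  have h1 : (0 : ℝ) < (n : ℝ) + 1 := by positivity
  have h2 : (0 : ℝ) < ((M * (n + 1) : ℕ) : ℝ) + 1 := by positivity
  rw [div_le_div_iff₀ h2 h1]
  push_cast
  nlinarith [mul_le_mul_of_nonneg_right hM h1.le]

theorem primrec_scale (M : ℕ) : Primrec fun n : ℕ => M * (n + 1) :=
  T.pmul (Primrec.const M) (T.psucc Primrec.id)

theorem IsPR.of_bound {z : ℂ} {C : ℝ} {A : ℕ → T} (hA : PR O A)
    (h : ∀ n : ℕ, ‖z - val (A n)‖ ≤ C / ((n : ℝ) + 1)) : IsPR O z := by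
  obtain ⟨M, hM⟩ := exists_nat_ge C
  exact ⟨fun n => A (M * (n + 1)), hA.comp (PR.of_primrec (primrec_scale M)),
    fun n => (h _).trans (scale_bound hM n)⟩

theorem IsPR.mono {O' : Set (ℕ → ℕ)} (h : O ⊆ O') {z : ℂ} (hz : IsPR O z) : IsPR O' z := by
  obtain ⟨A, hA, hAz⟩ := hz
  exact ⟨A, hA.mono h, hAz⟩

/-- effective evaluation with error `1 / (n + 1)` -/
theorem CA.eff' {f : (ι → ℂ) → ℂ} {b : ι → ℂ} (h : CA O f b) : ∃ r : ℝ, 0 < r ∧
    ∃ A : ℕ × Vec ι T → T, PR O A ∧ ∀ (n : ℕ) (x : Vec ι T), ‖vv x - b‖ < r →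
      ‖f (vv x) - val (A (n, x))‖ ≤ 1 / ((n : ℝ) + 1) := by
  obtain ⟨r, hr, C, A, hA, h1⟩ := h.eff
  obtain ⟨M, hM⟩ := exists_nat_ge C
  refine ⟨r, hr, fun p => A (M * (p.1 + 1), p.2), ?_, fun n x hx => ?_⟩
  · exact hA.comp (((PR.of_primrec (primrec_scale M)).comp PR.fst).pair PR.snd)
  · exact (h1 _ x hx).trans (scale_bound hM n)

/-- Lipschitz with a nonnegative constant -/
theorem CA.lip' {f : (ι → ℂ) → ℂ} {b : ι → ℂ} (h : CA O f b) : ∃ r : ℝ, 0 < r ∧ ∃ K : ℝ, 0 ≤ K ∧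
    ∀ x y : ι → ℂ, ‖x - b‖ < r → ‖y - b‖ < r → ‖f x - f y‖ ≤ K * ‖x - y‖ := by
  obtain ⟨r, hr, K, h1⟩ := h.lip
  refine ⟨r, hr, |K|, abs_nonneg K, fun x y hx hy => (h1 x y hx hy).trans ?_⟩
  exact mul_le_mul_of_nonneg_right (le_abs_self K) (norm_nonneg _)

theorem lip_of_strict {f : (ι → ℂ) → ℂ} {b : ι → ℂ} {L : (ι → ℂ) →L[ℂ] ℂ}
    (h : HasStrictFDerivAt f L b) : ∃ r : ℝ, 0 < r ∧ ∃ K : ℝ, ∀ x y : ι → ℂ, ‖x - b‖ < r →
      ‖y - b‖ < r → ‖f x - f y‖ ≤ K * ‖x - y‖ := by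
  obtain ⟨K, s, hs, hK⟩ := h.exists_lipschitzOnWith
  obtain ⟨r, hr, hrs⟩ := Metric.mem_nhds_iff.1 hs
  refine ⟨r, hr, K, fun x y hx hy => ?_⟩
  have h1 := hK.dist_le_mul x (hrs (by rwa [Metric.mem_ball, dist_eq_norm])) y
    (hrs (by rwa [Metric.mem_ball, dist_eq_norm]))
  rwa [dist_eq_norm, dist_eq_norm] at h1

theorem CA.congr {f g : (ι → ℂ) → ℂ} {b : ι → ℂ} (h : CA O f b) {r : ℝ} (hr : 0 < r)
    (hfg : ∀ x, ‖x - b‖ < r → f x = g x) : CA O g b := by
  obtain ⟨r1, hr1, K, h1⟩ := h.lip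
  obtain ⟨r2, hr2, C, A, hA, h2⟩ := h.eff
  refine ⟨⟨min r r1, lt_min hr hr1, K, fun x y hx hy => ?_⟩,
    ⟨min r r2, lt_min hr hr2, C, A, hA, fun n x hx => ?_⟩⟩
  · rw [← hfg x (hx.trans_le (min_le_left _ _)), ← hfg y (hy.trans_le (min_le_left _ _))]
    exact h1 x y (hx.trans_le (min_le_right _ _)) (hy.trans_le (min_le_right _ _))
  · rw [← hfg _ (hx.trans_le (min_le_left _ _))]
    exact h2 n x (hx.trans_le (min_le_right _ _))

open Filter Topology in
theorem CA.congr' {f g : (ι → ℂ) → ℂ} {b : ι → ℂ} (h : CA O f b) (hfg : f =ᶠ[𝓝 b] g) :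
    CA O g b := by
  obtain ⟨r, hr, hrs⟩ := Metric.eventually_nhds_iff.1 hfg
  exact h.congr hr fun x hx => hrs (by rwa [dist_eq_norm])

/-- functions which can be evaluated exactly -/
theorem CA.of_exact {f : (ι → ℂ) → ℂ} {b : ι → ℂ} {L : (ι → ℂ) →L[ℂ] ℂ}
    (h : HasStrictFDerivAt f L b) {A : Vec ι T → T} (hA : PR O A) (hf : ∀ x, f (vv x) = val (A x)) :
    CA O f b := by
  refine ⟨lip_of_strict h, ⟨1, one_pos, 0, fun p => A p.2, hA.comp PR.snd, fun n x _ => ?_⟩⟩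
  rw [hf, sub_self, norm_zero, zero_div]

theorem CA.proj (k : ι) (b : ι → ℂ) : CA O (fun v => v k) b :=
  CA.of_exact (ContinuousLinearMap.proj (R := ℂ) (φ := fun _ : ι => ℂ) k).hasStrictFDerivAt
    (A := fun x => x k) (PR.of_primrec (primrec_vec_apply k)) fun _ => rfl

theorem CA.const {c : ℂ} (hc : IsPR O c) (b : ι → ℂ) : CA O (fun _ => c) b := by
  obtain ⟨A, hA, h1⟩ := hc
  refine ⟨⟨1, one_pos, 0, fun x y _ _ => by simp⟩, ⟨1, one_pos, 1, fun p => A p.1,
    hA.comp PR.fst, fun n x _ => h1 n⟩⟩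

theorem CA.continuousAt {f : (ι → ℂ) → ℂ} {b : ι → ℂ} (h : CA O f b) : ContinuousAt f b := by
  obtain ⟨r, hr, K, hK, h1⟩ := h.lip'
  rw [Metric.continuousAt_iff]
  intro ε hε
  refine ⟨min r (ε / (K + 1)), lt_min hr (by positivity), fun x hx => ?_⟩
  rw [dist_eq_norm] at hx ⊢
  have h2 := h1 x b (hx.trans_le (min_le_left _ _)) (by rw [sub_self, norm_zero]; exact hr)
  have h3 : ‖x - b‖ < ε / (K + 1) := hx.trans_le (min_le_right _ _)
  rw [lt_div_iff₀ (by positivity)] at h3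
  nlinarith [norm_nonneg (x - b)]

/-- composition -/
theorem CA.comp {g : (κ → ℂ) → ℂ} {F : κ → (ι → ℂ) → ℂ} {b : ι → ℂ}
    (hg : CA O g (fun k => F k b)) (hF : ∀ k, CA O (F k) b) : CA O (fun v => g fun k => F k v) b := by
  classical
  obtain ⟨rg, hrg, Kg, hKg, hg1⟩ := hg.lip'
  obtain ⟨re, hre, A, hA, hA1⟩ := hg.eff'
  choose rF hrF KF hKF hF1 using fun k => (hF k).lip'
  choose rB hrB B hB hB1 using fun k => (hF k).eff'
  -- common constants
  obtain ⟨r0, hr0, hr0F⟩ : ∃ r0 : ℝ, 0 < r0 ∧ ∀ k, r0 ≤ rF k ∧ r0 ≤ rB k := by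
    by_cases hne : Nonempty κ
    · refine ⟨min (Finset.univ.inf' Finset.univ_nonempty rF) (Finset.univ.inf' Finset.univ_nonempty rB),
        lt_min ?_ ?_, fun k => ⟨(min_le_left _ _).trans (Finset.inf'_le _ (Finset.mem_univ k)),
          (min_le_right _ _).trans (Finset.inf'_le _ (Finset.mem_univ k))⟩⟩
      · rw [Finset.lt_inf'_iff]; exact fun k _ => hrF k
      · rw [Finset.lt_inf'_iff]; exact fun k _ => hrB k
    · exact ⟨1, one_pos, fun k => absurd ⟨k⟩ hne⟩
  let K : ℝ := 1 + ∑ k, KF k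
  have hK1 : 1 ≤ K := le_add_of_nonneg_right (Finset.sum_nonneg fun k _ => hKF k)
  have hK0 : 0 < K := one_pos.trans_le hK1
  have hKk : ∀ k, KF k ≤ K := fun k =>
    (Finset.single_le_sum (f := KF) (fun j _ => hKF j) (Finset.mem_univ k)).trans
      (le_add_of_nonneg_left zero_le_one)
  have hlip : ∀ x y : ι → ℂ, ‖x - b‖ < r0 → ‖y - b‖ < r0 →
      ‖(fun k => F k x) - (fun k => F k y)‖ ≤ K * ‖x - y‖ := by
    intro x y hx hy
    rw [pi_norm_le_iff_of_nonneg (by positivity)]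
    intro k
    exact (hF1 k x y (hx.trans_le (hr0F k).1) (hy.trans_le (hr0F k).1)).trans
      (mul_le_mul_of_nonneg_right (hKk k) (norm_nonneg _))
  have hb0 : ‖b - b‖ < r0 := by rw [sub_self, norm_zero]; exact hr0
  let rr : ℝ := min rg re
  have hrr : 0 < rr := lt_min hrg hre
  let r : ℝ := min r0 (rr / (2 * K))
  have hr : 0 < r := lt_min hr0 (by positivity)
  have hnear : ∀ x : ι → ℂ, ‖x - b‖ < r → ‖(fun k => F k x) - (fun k => F k b)‖ < rr / 2 := by
    intro x hx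
    refine (hlip x b (hx.trans_le (min_le_left _ _)) hb0).trans_lt ?_
    have h1 : ‖x - b‖ < rr / (2 * K) := hx.trans_le (min_le_right _ _)
    rw [lt_div_iff₀ (by positivity)] at h1
    nlinarith
  constructor
  · refine ⟨r, hr, Kg * K, fun x y hx hy => ?_⟩
    have h1 := hnear x hx
    have h2 := hnear y hy
    refine (hg1 _ _ ?_ ?_).trans ?_
    · exact h1.trans_le ((half_le_self hrr.le).trans (min_le_left _ _))
    · exact h2.trans_le ((half_le_self hrr.le).trans (min_le_left _ _))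
    · rw [mul_assoc]
      exact mul_le_mul_of_nonneg_left (hlip x y (hx.trans_le (min_le_left _ _))
        (hy.trans_le (min_le_left _ _))) hKg
  · -- number of steps needed to be near
    obtain ⟨N, hN⟩ := exists_nat_gt (2 / rr)
    refine ⟨r, hr, Kg + 1, fun p => A (p.1, fun k => B k (N + p.1, p.2)), ?_, ?_⟩
    · refine hA.comp (PR.fst.pair (PR.vec fun k => ?_))
      exact (hB k).comp (((PR.const N).add PR.fst).pair PR.snd)
    · intro n x hx
      let y : Vec κ T := fun k => B k (N + n, x)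
      have hn0 : (0 : ℝ) < (n : ℝ) + 1 := by positivity
      have hx0 : ‖vv x - b‖ < r0 := hx.trans_le (min_le_left _ _)
      have h1 : ‖(fun k => F k (vv x)) - vv y‖ ≤ 1 / (((N + n : ℕ) : ℝ) + 1) := by
        rw [pi_norm_le_iff_of_nonneg (by positivity)]
        intro k
        exact hB1 k (N + n) x (hx0.trans_le (hr0F k).2)
      have h2 : 1 / (((N + n : ℕ) : ℝ) + 1) ≤ 1 / ((n : ℝ) + 1) := by
        apply one_div_le_one_div_of_le hn0
        push_cast
        linarith [Nat.cast_nonneg (α := ℝ) N]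
      have h3 : 1 / (((N + n : ℕ) : ℝ) + 1) < rr / 2 := by
        have h4 : (2 : ℝ) / rr < N + n + 1 := by
          linarith [Nat.cast_nonneg (α := ℝ) n]
        rw [div_lt_iff₀ hrr] at h4
        rw [div_lt_div_iff₀ (by positivity) two_pos]
        push_cast
        linarith
      have h5 : ‖vv y - fun k => F k b‖ < rr := by
        have e : vv y - (fun k => F k b) = -((fun k => F k (vv x)) - vv y) +
            ((fun k => F k (vv x)) - fun k => F k b) := by abel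
        rw [e]
        refine (norm_add_le _ _).trans_lt ?_
        rw [norm_neg]
        linarith [hnear _ hx, h1.trans_lt h3]
      have h6 : ‖(fun k => F k (vv x)) - fun k => F k b‖ < rr :=
        (hnear _ hx).trans_le (half_le_self hrr.le)
      have h7 := hg1 _ _ (h6.trans_le (min_le_left _ _)) (h5.trans_le (min_le_left _ _))
      have h8 := hA1 n y (h5.trans_le (min_le_right _ _))
      show ‖g (fun k => F k (vv x)) - val (A (n, y))‖ ≤ (Kg + 1) / ((n : ℝ) + 1)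
      have e : g (fun k => F k (vv x)) - val (A (n, y)) =
          (g (fun k => F k (vv x)) - g (vv y)) + (g (vv y) - val (A (n, y))) := by ring
      rw [e, add_div]
      refine (norm_add_le _ _).trans (add_le_add (h7.trans ?_) h8)
      rw [div_eq_mul_one_div]
      exact mul_le_mul_of_nonneg_left (h1.trans h2) hKg

/-- the value at a primitive recursive point -/
theorem CA.isPR {f : (ι → ℂ) → ℂ} {b : ι → ℂ} (h : CA O f b) (hb : ∀ k, IsPR O (b k)) :
    IsPR O (f b) := by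
  have h1 : CA O (fun v : Fin 0 → ℂ => f fun k => (fun _ => b k) v) (fun _ => 0) :=
    CA.comp (F := fun k (_ : Fin 0 → ℂ) => b k) h fun k => CA.const (hb k) _
  obtain ⟨r, hr, A, hA, hA1⟩ := h1.eff'
  let x : Vec (Fin 0) T := fun k => k.elim0
  refine ⟨fun n => A (n, x), hA.comp (PR.id.pair (PR.const x)), fun n => ?_⟩
  have h2 := hA1 n x (by
    have : vv x - (fun _ => (0 : ℂ)) = 0 := Subsingleton.elim _ _
    rw [this, norm_zero]; exact hr)
  exact h2

/-! ### The field operations -/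

theorem CA.binary {f g : (ι → ℂ) → ℂ} {b : ι → ℂ} (op : (Fin 2 → ℂ) → ℂ) (hf : CA O f b)
    (hg : CA O g b) (hop : CA O op ![f b, g b]) : CA O (fun v => op ![f v, g v]) b := by
  have h1 : CA O (fun v => op fun k => (![f, g] : Fin 2 → (ι → ℂ) → ℂ) k v) b := by
    apply CA.comp
    · have e : (fun k => (![f, g] : Fin 2 → (ι → ℂ) → ℂ) k b) = ![f b, g b] := by
        funext k; fin_cases k <;> rfl
      rw [e]; exact hop
    · intro k
      fin_cases k
      · exact hf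
      · exact hg
  have e : ∀ v, (fun k => (![f, g] : Fin 2 → (ι → ℂ) → ℂ) k v) = ![f v, g v] := by
    intro v
    funext k; fin_cases k <;> rfl
  simpa only [e] using h1

theorem CA.unary {f : (ι → ℂ) → ℂ} {b : ι → ℂ} (op : (Fin 1 → ℂ) → ℂ) (hf : CA O f b)
    (hop : CA O op fun _ => f b) : CA O (fun v => op fun _ => f v) b :=
  CA.comp (F := fun _ : Fin 1 => f) hop fun _ => hf

theorem strict_proj {m : ℕ} (k : Fin m) (b : Fin m → ℂ) :
    HasStrictFDerivAt (fun v : Fin m → ℂ => v k)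
      (ContinuousLinearMap.proj (R := ℂ) (φ := fun _ : Fin m => ℂ) k) b :=
  (ContinuousLinearMap.proj (R := ℂ) (φ := fun _ : Fin m => ℂ) k).hasStrictFDerivAt

theorem pr_apply {m : ℕ} (k : Fin m) : PR O fun x : Vec (Fin m) T => x k :=
  PR.of_primrec (primrec_vec_apply k)

theorem CA.add {f g : (ι → ℂ) → ℂ} {b : ι → ℂ} (hf : CA O f b) (hg : CA O g b) :
    CA O (fun v => f v + g v) b :=
  CA.binary (fun v => v 0 + v 1) hf hg
    (CA.of_exact ((strict_proj 0 _).add (strict_proj 1 _)) (A := fun x => T.add (x 0) (x 1))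
      (PR.comp₂ T.primrec_add (pr_apply 0) (pr_apply 1)) fun x => (T.val_add _ _).symm)

theorem CA.mul {f g : (ι → ℂ) → ℂ} {b : ι → ℂ} (hf : CA O f b) (hg : CA O g b) :
    CA O (fun v => f v * g v) b :=
  CA.binary (fun v => v 0 * v 1) hf hg
    (CA.of_exact ((strict_proj 0 _).mul (strict_proj 1 _)) (A := fun x => T.mul (x 0) (x 1))
      (PR.comp₂ T.primrec_mul (pr_apply 0) (pr_apply 1)) fun x => (T.val_mul _ _).symm)

theorem CA.neg {f : (ι → ℂ) → ℂ} {b : ι → ℂ} (hf : CA O f b) : CA O (fun v => -f v) b :=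
  CA.unary (fun v => -v 0) hf
    (CA.of_exact (strict_proj 0 _).neg (A := fun x => T.neg (x 0))
      ((PR.of_primrec T.primrec_neg).comp (pr_apply 0)) fun x => (T.val_neg _).symm)

theorem CA.inv {f : (ι → ℂ) → ℂ} {b : ι → ℂ} (hf : CA O f b) (h0 : f b ≠ 0) :
    CA O (fun v => (f v)⁻¹) b :=
  CA.unary (fun v => (v 0)⁻¹) hf
    (CA.of_exact (HasStrictDerivAt.comp_hasStrictFDerivAt (f := fun v : Fin 1 → ℂ => v 0)
      (fun _ => f b) (hasStrictDerivAt_inv (𝕜 := ℂ) (x := f b) h0)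
      (strict_proj 0 fun _ => f b)) (A := fun x => T.inv (x 0))
      ((PR.of_primrec T.primrec_inv).comp (pr_apply 0)) fun x => (T.val_inv _).symm)

theorem CA.sub {f g : (ι → ℂ) → ℂ} {b : ι → ℂ} (hf : CA O f b) (hg : CA O g b) :
    CA O (fun v => f v - g v) b := by
  simpa only [sub_eq_add_neg] using hf.add hg.neg

theorem CA.div {f g : (ι → ℂ) → ℂ} {b : ι → ℂ} (hf : CA O f b) (hg : CA O g b) (h0 : g b ≠ 0) :
    CA O (fun v => f v / g v) b := by
  simpa only [div_eq_mul_inv] using hf.mul (hg.inv h0)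

theorem isPR_val (x : T) : IsPR O (val x) :=
  ⟨fun _ => x, PR.const x, fun n => by rw [sub_self, norm_zero]; positivity⟩

theorem CA.pow {f : (ι → ℂ) → ℂ} {b : ι → ℂ} (hf : CA O f b) (m : ℕ) :
    CA O (fun v => f v ^ m) b := by
  induction m with
  | zero =>
    have h1 : IsPR O 1 := by rw [← T.val_one]; exact isPR_val _
    simpa using CA.const h1 b
  | succ m ih =>
    simpa only [pow_succ] using ih.mul hf

theorem CA.sum {κ : Type} (s : Finset κ) {f : κ → (ι → ℂ) → ℂ} {b : ι → ℂ}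
    (hf : ∀ k ∈ s, CA O (f k) b) : CA O (fun v => ∑ k ∈ s, f k v) b := by
  classical
  induction s using Finset.induction_on with
  | empty =>
    have h1 : IsPR O 0 := by rw [← T.val_zero]; exact isPR_val _
    simpa using CA.const h1 b
  | insert k s hk ih =>
    have h1 := (hf k (Finset.mem_insert_self _ _)).add
      (ih fun j hj => hf j (Finset.mem_insert_of_mem hj))
    simpa only [Finset.sum_insert hk] using h1

/-! ### The field of primitive recursive numbers -/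

theorem IsPR.zero : IsPR O 0 := by rw [← T.val_zero]; exact isPR_val _
theorem IsPR.one : IsPR O 1 := by rw [← T.val_one]; exact isPR_val _
theorem IsPR.I : IsPR O Complex.I := by rw [← T.val_I]; exact isPR_val _

theorem IsPR.add {x y : ℂ} (hx : IsPR O x) (hy : IsPR O y) : IsPR O (x + y) :=
  ((CA.proj 0 ![x, y]).add (CA.proj 1 ![x, y])).isPR fun k => by fin_cases k; exacts [hx, hy]

theorem IsPR.mul {x y : ℂ} (hx : IsPR O x) (hy : IsPR O y) : IsPR O (x * y) :=
  ((CA.proj 0 ![x, y]).mul (CA.proj 1 ![x, y])).isPR fun k => by fin_cases k; exacts [hx, hy]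

theorem IsPR.neg {x : ℂ} (hx : IsPR O x) : IsPR O (-x) :=
  (CA.proj 0 ![x]).neg.isPR fun k => by fin_cases k; exact hx

theorem IsPR.inv {x : ℂ} (hx : IsPR O x) : IsPR O x⁻¹ := by
  by_cases h0 : x = 0
  · rw [h0, inv_zero]; exact IsPR.zero
  · exact ((CA.proj 0 ![x]).inv h0).isPR fun k => by fin_cases k; exact hx

/-- the field of the numbers which are primitive recursive relative to `O` -/
def EF (O : Set (ℕ → ℕ)) : Subfield ℂ where
  carrier := {z | IsPR O z}
  zero_mem' := IsPR.zero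
  one_mem' := IsPR.one
  add_mem' := IsPR.add
  mul_mem' := IsPR.mul
  neg_mem' := IsPR.neg
  inv_mem' := fun _ => IsPR.inv

theorem mem_EF {z : ℂ} : z ∈ EF O ↔ IsPR O z := Iff.rfl

theorem IsPR.ratCast (q : ℚ) : IsPR O (q : ℂ) := by
  rw [← mem_EF]
  exact SubfieldClass.ratCast_mem (EF O) q

theorem EF_mono {O' : Set (ℕ → ℕ)} (h : O ⊆ O') : EF O ≤ EF O' := fun _ hz => IsPR.mono h hz

theorem countable_EF (hO : O.Countable) : ((EF O : Subfield ℂ) : Set ℂ).Countable := by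
  classical
  -- a number is determined by the function on codes
  let P : (ℕ → ℕ) → Set ℂ := fun f => {z | ∃ A : ℕ → T, (∀ n, f (encode n) = encode (A n)) ∧
    ∀ n : ℕ, ‖z - val (A n)‖ ≤ 1 / ((n : ℝ) + 1)}
  have hP : ∀ f, (P f).Subsingleton := by
    rintro f z ⟨A, hA, hz⟩ w ⟨B, hB, hw⟩
    have hAB : A = B := by
      funext n
      exact encode_injective ((hA n).symm.trans (hB n))
    subst hAB
    by_contra hne
    have h0 : 0 < ‖z - w‖ := norm_pos_iff.2 (sub_ne_zero.2 hne)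
    obtain ⟨n, hn⟩ := exists_nat_gt (2 / ‖z - w‖)
    have h1 : ‖z - w‖ ≤ 2 / ((n : ℝ) + 1) := by
      have e : z - w = (z - val (A n)) - (w - val (A n)) := by ring
      rw [e]
      refine (norm_sub_le _ _).trans ((add_le_add (hz n) (hw n)).trans (le_of_eq ?_))
      ring
    rw [div_lt_iff₀ h0] at hn
    rw [le_div_iff₀ (by positivity)] at h1
    nlinarith
  have hsub : ((EF O : Subfield ℂ) : Set ℂ) ⊆ ⋃ f ∈ {f | PRIn O f}, P f := by
    rintro z ⟨A, ⟨f, hf, hfA⟩, hz⟩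
    exact Set.mem_biUnion (show f ∈ {f | PRIn O f} from hf) ⟨A, hfA, hz⟩
  exact (Set.Countable.biUnion (countable_prin hO) fun f _ => (hP f).countable).mono hsub

end Pool.Agent.EllPR
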