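import Pool.Agent.EllPR.CA

/-!
# Nondegenerate zeros of effectively computable systems are primitive recursive
-/

open Filter Topology

namespace Pool.Agent.EllPR

variable {O : Set (ℕ → ℕ)} {ι : Type} [Fintype ι]

/-- finite sums of codes -/
theorem exists_sum {α : Type*} [Primcodable α] {κ : Type} (s : Finset κ) {F : κ → α → T}
    (hF : ∀ k ∈ s, PR O (F k)) : ∃ S : α → T, PR O S ∧ ∀ a, val (S a) = ∑ k ∈ s, val (F k a) := by
  classical
  induction s using Finset.induction_on with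
  | empty => exact ⟨fun _ => T.zero, PR.const _, fun a => by simp [T.val_zero]⟩
  | insert k s hk ih =>
    obtain ⟨S, hS, hS1⟩ := ih fun j hj => hF j (Finset.mem_insert_of_mem hj)
    refine ⟨fun a => T.add (F k a) (S a),
      PR.comp₂ T.primrec_add (hF k (Finset.mem_insert_self _ _)) hS, fun a => ?_⟩
    rw [T.val_add, hS1, Finset.sum_insert hk]

theorem primrec_pow2 : Primrec fun n : ℕ => 2 ^ n :=
  (Primrec₂.unpaired'.1 Nat.Primrec.pow).comp (Primrec.const 2) Primrec.id

/-- coordinates of a continuous linear map -/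
theorem clm_coord [DecidableEq ι] (L : (ι → ℂ) →L[ℂ] (ι → ℂ)) (y : ι → ℂ) (k : ι) :
    L y k = ∑ l, y l * L (Pi.single l 1) k := by
  have h := LinearMap.pi_apply_eq_sum_univ (L : (ι → ℂ) →ₗ[ℂ] (ι → ℂ)) y
  have h1 := congrFun h k
  simp only [ContinuousLinearMap.coe_coe, Finset.sum_apply, Pi.smul_apply, smul_eq_mul] at h1
  rw [h1]
  apply Finset.sum_congr rfl
  intro l _
  have h2 : (fun j => if l = j then (1 : ℂ) else 0) = Pi.single l 1 := by
    funext j
    by_cases hjl : l = j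
    · subst hjl; simp
    · rw [Pi.single_eq_of_ne (Ne.symm hjl), if_neg hjl]
  rw [h2]

theorem newton {G : (ι → ℂ) → (ι → ℂ)} {b : ι → ℂ} (e : (ι → ℂ) ≃L[ℂ] (ι → ℂ))
    (hG : HasStrictFDerivAt G (e : (ι → ℂ) →L[ℂ] (ι → ℂ)) b) (hG0 : G b = 0)
    (hCA : ∀ k, CA O (fun v => G v k) b) (k : ι) : IsPR O (b k) := by
  classical
  have hne : Nonempty ι := ⟨k⟩
  choose r hr A hA hA1 using fun k => (hCA k).eff'
  -- the approximate inverse
  let s : (ι → ℂ) →L[ℂ] (ι → ℂ) := (e.symm : (ι → ℂ) →L[ℂ] (ι → ℂ))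
  let ne : ℝ := ‖(e : (ι → ℂ) →L[ℂ] (ι → ℂ))‖
  have hne0 : 0 ≤ ne := norm_nonneg _
  let c : ℝ := Fintype.card ι
  have hc0 : 0 < c := by
    have h1 : 0 < Fintype.card ι := Fintype.card_pos
    show (0 : ℝ) < (Fintype.card ι : ℝ)
    exact_mod_cast h1
  let ε : ℝ := 1 / (8 * c * (ne + 1))
  have hε : 0 < ε := by positivity
  choose M hM using fun k l => T.exists_val_near (s (Pi.single l 1) k) hε
  let Mm : (ι → ℂ) → ι → ℂ := fun y k => ∑ l, val (M k l) * y l
  have hMs : ∀ y, ‖Mm y - s y‖ ≤ c * ε * ‖y‖ := by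
    intro y
    rw [pi_norm_le_iff_of_nonneg (by positivity)]
    intro k
    have h1 : (Mm y - s y) k = ∑ l, (val (M k l) - s (Pi.single l 1) k) * y l := by
      rw [Pi.sub_apply, clm_coord s y k, ← Finset.sum_sub_distrib]
      apply Finset.sum_congr rfl
      intro l _
      ring
    rw [h1]
    calc ‖∑ l, (val (M k l) - s (Pi.single l 1) k) * y l‖
        ≤ ∑ l, ‖(val (M k l) - s (Pi.single l 1) k) * y l‖ := norm_sum_le _ _
      _ ≤ ∑ _l : ι, ε * ‖y‖ := by
          apply Finset.sum_le_sum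
          intro l _
          rw [norm_mul]
          exact mul_le_mul (hM k l).le (norm_le_pi_norm y l) (norm_nonneg _) hε.le
      _ = c * ε * ‖y‖ := by
          rw [Finset.sum_const, Finset.card_univ, nsmul_eq_mul, mul_assoc]
  have hMadd : ∀ y z, Mm (y - z) = Mm y - Mm z := by
    intro y z
    funext k
    simp only [Mm, Pi.sub_apply, mul_sub, Finset.sum_sub_distrib]
  let B : ℝ := ‖s‖ + c * ε
  have hB0 : 0 ≤ B := by positivity
  have hMB : ∀ y, ‖Mm y‖ ≤ B * ‖y‖ := by
    intro y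
    have e1 : Mm y = (Mm y - s y) + s y := by abel
    rw [e1]
    refine (norm_add_le _ _).trans ?_
    have h2 := s.le_opNorm y
    have h3 := hMs y
    have h4 : B * ‖y‖ = c * ε * ‖y‖ + ‖s‖ * ‖y‖ := by ring
    rw [h4]
    exact add_le_add h3 h2
  have hMe : ∀ x, ‖x - Mm (e x)‖ ≤ 1 / 8 * ‖x‖ := by
    intro x
    have e1 : x = s (e x) := (e.symm_apply_apply x).symm
    have e2 : ‖x - Mm (e x)‖ = ‖Mm (e x) - s (e x)‖ := by
      rw [← norm_neg]
      congr 1
      rw [neg_sub]
      congr 1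
    rw [e2]
    refine (hMs (e x)).trans ?_
    have h1 : ‖e x‖ ≤ ne * ‖x‖ := (e : (ι → ℂ) →L[ℂ] (ι → ℂ)).le_opNorm x
    have h2 : c * ε * (ne * ‖x‖) ≤ 1 / 8 * ‖x‖ := by
      have h3 : c * ε * ne ≤ 1 / 8 := by
        have h4 : c * ε * (ne + 1) = 1 / 8 := by
          show c * (1 / (8 * c * (ne + 1))) * (ne + 1) = 1 / 8
          field_simp
        have h5 : 0 < c * ε := by positivity
        linarith
      calc c * ε * (ne * ‖x‖) = c * ε * ne * ‖x‖ := by ring
        _ ≤ 1 / 8 * ‖x‖ := mul_le_mul_of_nonneg_right h3 (norm_nonneg _)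
    exact (mul_le_mul_of_nonneg_left h1 (by positivity)).trans h2
  -- the derivative estimate
  let δ : ℝ := 1 / (8 * (B + 1))
  have hδ : 0 < δ := by positivity
  have hlin : ∀ᶠ x in 𝓝 b, ‖G x - G b - e (x - b)‖ ≤ δ * ‖x - b‖ :=
    (hG.hasFDerivAt.isLittleO).bound hδ
  obtain ⟨ρ1, hρ1, hρ1'⟩ := Metric.eventually_nhds_iff.1 hlin
  let ρ : ℝ := min (ρ1 / 2) (Finset.univ.inf' Finset.univ_nonempty r / 2)
  have hinf : 0 < Finset.univ.inf' Finset.univ_nonempty r := by
    rw [Finset.lt_inf'_iff]; exact fun k _ => hr k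
  have hρ : 0 < ρ := lt_min (by positivity) (by positivity)
  have hρr : ∀ k, ρ < r k := fun k =>
    ((min_le_right _ _).trans_lt (half_lt_self hinf)).trans_le
      (Finset.inf'_le _ (Finset.mem_univ k))
  have hρ' : ρ < ρ1 := (min_le_left _ _).trans_lt (half_lt_self hρ1)
  -- the precision
  obtain ⟨C, hC⟩ := exists_nat_ge (4 * B / ρ + 1)
  have hC1 : (1 : ℝ) ≤ C := le_trans (by
    have : 0 ≤ 4 * B / ρ := by positivity
    linarith) hC
  have hCB : 4 * B ≤ ρ * C := by
    have h1 : 4 * B / ρ ≤ C := by linarith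
    rw [div_le_iff₀ hρ] at h1
    linarith
  -- the step
  have hS : ∀ k, ∃ S : ℕ × Vec ι T → T, PR O S ∧ ∀ p, val (S p) =
      ∑ l, val (M k l) * val (A l (C * 2 ^ p.1, p.2)) := by
    intro k
    obtain ⟨S, hS, hS1⟩ := exists_sum (O := O) Finset.univ
      (F := fun l (p : ℕ × Vec ι T) => T.mul (M k l) (A l (C * 2 ^ p.1, p.2)))
      (fun l _ => PR.comp₂ T.primrec_mul (PR.const _) ((hA l).comp
        (((PR.const C).mul ((PR.of_primrec primrec_pow2).comp PR.fst)).pair PR.snd)))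
    refine ⟨S, hS, fun p => ?_⟩
    rw [hS1]
    exact Finset.sum_congr rfl fun l _ => T.val_mul _ _
  choose S hS hS1 using hS
  obtain ⟨x0, hx0⟩ := T.exists_val_vec b hρ
  let step : Unit × (ℕ × Vec ι T) → Vec ι T := fun p k =>
    T.add (p.2.2 k) (T.neg (S k p.2))
  have hstep : PR O step := by
    apply PR.vec
    intro k
    refine PR.comp₂ T.primrec_add ?_ ((PR.of_primrec T.primrec_neg).comp ((hS k).comp PR.snd))
    exact PR.vec_apply (PR.snd.comp PR.snd) k
  let X : ℕ → Vec ι T := fun n => Nat.rec x0 (fun y IH => step ((), (y, IH))) n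
  have hX : PR O X := by
    have h1 := PR.iterate (O := O) (F := fun _ : Unit => x0) (G := step) (H := fun _ => 0)
      (PR.const _) hstep (PR.const _)
    have h2 := (PR.rec (O := O) (F := fun _ : Unit => x0) (G := step) (PR.const _) hstep).comp
      ((PR.const (O := O) (α := ℕ) ()).pair PR.id)
    exact h2
  have hX0 : X 0 = x0 := rfl
  have hXs : ∀ j, X (j + 1) = step ((), (j, X j)) := fun j => rfl
  have hmain : ∀ j, ‖vv (X j) - b‖ ≤ ρ / 2 ^ j := by
    intro j
    induction j with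
    | zero => rw [hX0, pow_zero, div_one]; exact hx0.le
    | succ j ih =>
      set x := vv (X j) with hx
      have h2j : (0 : ℝ) < 2 ^ j := by positivity
      have h2j1 : (1 : ℝ) ≤ 2 ^ j := one_le_pow₀ (by norm_num)
      have hxρ : ‖x - b‖ ≤ ρ := ih.trans (div_le_self hρ.le h2j1)
      let a : ι → ℂ := fun l => val (A l (C * 2 ^ j, X j))
      have ha : ‖G x - a‖ ≤ 1 / ((C : ℝ) * 2 ^ j) := by
        rw [pi_norm_le_iff_of_nonneg (by positivity)]
        intro l
        refine (hA1 l (C * 2 ^ j) (X j) (hxρ.trans_lt (hρr l))).trans ?_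
        apply one_div_le_one_div_of_le (by positivity)
        push_cast
        linarith
      have e1 : vv (X (j + 1)) = x - Mm a := by
        funext k
        rw [hXs]
        show val (T.add (X j k) (T.neg (S k (j, X j)))) = _
        rw [T.val_add, T.val_neg, hS1]
        rfl
      have e2 : vv (X (j + 1)) - b = ((x - b) - Mm (e (x - b))) - Mm (G x - G b - e (x - b)) +
          Mm (G x - a) := by
        rw [e1, hMadd, hMadd, hMadd, hG0]
        have h0 : Mm 0 = 0 := by
          funext k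
          simp [Mm]
        rw [h0]
        abel
      have h3 : ‖G x - G b - e (x - b)‖ ≤ δ * ‖x - b‖ :=
        hρ1' (by rw [dist_eq_norm]; exact hxρ.trans_lt hρ')
      rw [e2]
      have h4 : B * (δ * ‖x - b‖) ≤ 1 / 8 * ‖x - b‖ := by
        have h5 : B * δ ≤ 1 / 8 := by
          have h6 : (B + 1) * δ = 1 / 8 := by
            show (B + 1) * (1 / (8 * (B + 1))) = 1 / 8
            field_simp
          nlinarith
        calc B * (δ * ‖x - b‖) = B * δ * ‖x - b‖ := by ring
          _ ≤ 1 / 8 * ‖x - b‖ := mul_le_mul_of_nonneg_right h5 (norm_nonneg _)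
      have h7 : B * (1 / ((C : ℝ) * 2 ^ j)) ≤ 1 / 4 * (ρ / 2 ^ j) := by
        have hCpos : (0 : ℝ) < C := by linarith
        rw [mul_one_div, div_le_iff₀ (by positivity)]
        have e5 : 1 / 4 * (ρ / 2 ^ j) * (C * 2 ^ j) = ρ * C / 4 := by
          field_simp
        rw [e5]
        linarith
      calc ‖((x - b) - Mm (e (x - b))) - Mm (G x - G b - e (x - b)) + Mm (G x - a)‖
          ≤ ‖(x - b) - Mm (e (x - b))‖ + ‖Mm (G x - G b - e (x - b))‖ + ‖Mm (G x - a)‖ :=
            (norm_add_le _ _).trans (add_le_add_left (norm_sub_le _ _) _)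
        _ ≤ 1 / 8 * ‖x - b‖ + 1 / 8 * ‖x - b‖ + 1 / 4 * (ρ / 2 ^ j) := by
            refine add_le_add (add_le_add (hMe _) ?_) ?_
            · exact ((hMB _).trans (mul_le_mul_of_nonneg_left h3 hB0)).trans h4
            · exact ((hMB _).trans (mul_le_mul_of_nonneg_left ha hB0)).trans h7
        _ ≤ 1 / 8 * (ρ / 2 ^ j) + 1 / 8 * (ρ / 2 ^ j) + 1 / 4 * (ρ / 2 ^ j) := by
            gcongr
        _ = ρ / 2 ^ (j + 1) := by rw [pow_succ]; field_simp; norm_num
  refine IsPR.of_bound (C := ρ) (A := fun n => X n k) (PR.vec_apply hX k) fun n => ?_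
  have h1 : ‖b k - val (X n k)‖ ≤ ‖vv (X n) - b‖ := by
    rw [← norm_neg, neg_sub]
    exact norm_le_pi_norm (vv (X n) - b) k
  refine (h1.trans (hmain n)).trans ?_
  apply div_le_div_of_nonneg_left hρ.le (by positivity)
  have h2 : n + 1 ≤ 2 ^ n := Nat.lt_two_pow_self
  exact_mod_cast h2

end Pool.Agent.EllPR
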