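import Mathlib

/-!
# Functions that are primitive recursive relative to a set of functions
-/

open Encodable

namespace Pool.Agent.EllPR

/-- the functions which are primitive recursive relative to the functions of `O` -/
inductive PRIn (O : Set (ℕ → ℕ)) : (ℕ → ℕ) → Prop
  | oracle {f : ℕ → ℕ} (hf : f ∈ O) : PRIn O f
  | zero : PRIn O fun _ => 0
  | succ : PRIn O Nat.succ
  | left : PRIn O fun n => n.unpair.1
  | right : PRIn O fun n => n.unpair.2
  | pair {f g : ℕ → ℕ} : PRIn O f → PRIn O g → PRIn O fun n => Nat.pair (f n) (g n)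
  | comp {f g : ℕ → ℕ} : PRIn O f → PRIn O g → PRIn O fun n => f (g n)
  | prec {f g : ℕ → ℕ} : PRIn O f → PRIn O g →
      PRIn O (Nat.unpaired fun z n => n.rec (f z) fun y IH => g <| Nat.pair z <| Nat.pair y IH)

theorem PRIn.of_eq {O : Set (ℕ → ℕ)} {f g : ℕ → ℕ} (hf : PRIn O f) (H : ∀ n, f n = g n) :
    PRIn O g :=
  (funext H : f = g) ▸ hf

theorem PRIn.of_nat {O : Set (ℕ → ℕ)} {f : ℕ → ℕ} (hf : Nat.Primrec f) : PRIn O f := by
  induction hf with
  | zero => exact PRIn.zero
  | succ => exact PRIn.succ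
  | left => exact PRIn.left
  | right => exact PRIn.right
  | pair _ _ h1 h2 => exact h1.pair h2
  | comp _ _ h1 h2 => exact h1.comp h2
  | prec _ _ h1 h2 => exact h1.prec h2

theorem PRIn.mono {O O' : Set (ℕ → ℕ)} (h : O ⊆ O') {f : ℕ → ℕ} (hf : PRIn O f) : PRIn O' f := by
  induction hf with
  | oracle hf => exact PRIn.oracle (h hf)
  | zero => exact PRIn.zero
  | succ => exact PRIn.succ
  | left => exact PRIn.left
  | right => exact PRIn.right
  | pair _ _ h1 h2 => exact h1.pair h2
  | comp _ _ h1 h2 => exact h1.comp h2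
  | prec _ _ h1 h2 => exact h1.prec h2

theorem prin_empty_iff {f : ℕ → ℕ} : PRIn ∅ f ↔ Nat.Primrec f := by
  refine ⟨fun hf => ?_, PRIn.of_nat⟩
  induction hf with
  | oracle hf => exact absurd hf (Set.notMem_empty _)
  | zero => exact Nat.Primrec.zero
  | succ => exact Nat.Primrec.succ
  | left => exact Nat.Primrec.left
  | right => exact Nat.Primrec.right
  | pair _ _ h1 h2 => exact h1.pair h2
  | comp _ _ h1 h2 => exact h1.comp h2
  | prec _ _ h1 h2 => exact h1.prec h2

/-- only countably many functions are primitive recursive relative to a countable set -/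
theorem countable_prin {O : Set (ℕ → ℕ)} (hO : O.Countable) : {f | PRIn O f}.Countable := by
  let S : ℕ → Set (ℕ → ℕ) := fun k => Nat.rec
    (O ∪ {fun _ => 0, Nat.succ, fun n => n.unpair.1, fun n => n.unpair.2})
    (fun _ s => s ∪ (Set.image2 (fun f g n => Nat.pair (f n) (g n)) s s ∪
      (Set.image2 (fun f g n => f (g n)) s s ∪ Set.image2 (fun f g => Nat.unpaired fun z n =>
        n.rec (f z) fun y IH => g <| Nat.pair z <| Nat.pair y IH) s s))) k
  have hS0 : S 0 = O ∪ {fun _ => 0, Nat.succ, fun n => n.unpair.1, fun n => n.unpair.2} := rfl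
  have hSs : ∀ k, S (k + 1) = S k ∪ (Set.image2 (fun f g n => Nat.pair (f n) (g n)) (S k) (S k) ∪
      (Set.image2 (fun f g n => f (g n)) (S k) (S k) ∪
        Set.image2 (fun f g => Nat.unpaired fun z n =>
          n.rec (f z) fun y IH => g <| Nat.pair z <| Nat.pair y IH) (S k) (S k))) := fun k => rfl
  have hc : ∀ k, (S k).Countable := by
    intro k
    induction k with
    | zero =>
      rw [hS0]
      exact hO.union (Set.toFinite _).countable
    | succ k ih =>
      rw [hSs]
      exact ih.union ((ih.image2 ih _).union ((ih.image2 ih _).union (ih.image2 ih _)))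
  have hm : ∀ k l, k ≤ l → S k ⊆ S l := by
    intro k l hkl
    induction hkl with
    | refl => exact subset_rfl
    | step _ ih =>
      refine ih.trans ?_
      rw [hSs]
      exact Set.subset_union_left
  refine (Set.countable_iUnion hc).mono ?_
  intro f hf
  rw [Set.mem_iUnion]
  change PRIn O f at hf
  induction hf with
  | oracle hf => exact ⟨0, by rw [hS0]; exact Or.inl hf⟩
  | zero => exact ⟨0, by rw [hS0]; right; simp⟩
  | succ => exact ⟨0, by rw [hS0]; right; simp⟩
  | left => exact ⟨0, by rw [hS0]; right; simp⟩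
  | right => exact ⟨0, by rw [hS0]; right; simp⟩
  | pair _ _ h1 h2 =>
    obtain ⟨k, hk⟩ := h1
    obtain ⟨l, hl⟩ := h2
    refine ⟨max k l + 1, ?_⟩
    rw [hSs]
    exact Or.inr (Or.inl ⟨_, hm _ _ (le_max_left k l) hk, _, hm _ _ (le_max_right k l) hl, rfl⟩)
  | comp _ _ h1 h2 =>
    obtain ⟨k, hk⟩ := h1
    obtain ⟨l, hl⟩ := h2
    refine ⟨max k l + 1, ?_⟩
    rw [hSs]
    exact Or.inr (Or.inr (Or.inl
      ⟨_, hm _ _ (le_max_left k l) hk, _, hm _ _ (le_max_right k l) hl, rfl⟩))
  | prec _ _ h1 h2 =>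
    obtain ⟨k, hk⟩ := h1
    obtain ⟨l, hl⟩ := h2
    refine ⟨max k l + 1, ?_⟩
    rw [hSs]
    exact Or.inr (Or.inr (Or.inr
      ⟨_, hm _ _ (le_max_left k l) hk, _, hm _ _ (le_max_right k l) hl, rfl⟩))

/-! ### Typed functions -/

section typed

variable {O : Set (ℕ → ℕ)}
variable {α β γ δ : Type*} [Primcodable α] [Primcodable β] [Primcodable γ] [Primcodable δ]

/-- `F` is computed, on codes, by a function which is primitive recursive relative to `O` -/
def PR (O : Set (ℕ → ℕ)) {α β : Type*} [Primcodable α] [Primcodable β] (F : α → β) : Prop :=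
  ∃ f : ℕ → ℕ, PRIn O f ∧ ∀ a, f (encode a) = encode (F a)

theorem PR.of_eq {F G : α → β} (hF : PR O F) (H : ∀ a, F a = G a) : PR O G :=
  (funext H : F = G) ▸ hF

theorem PR.mono {O' : Set (ℕ → ℕ)} (h : O ⊆ O') {F : α → β} (hF : PR O F) : PR O' F := by
  obtain ⟨f, hf, hfa⟩ := hF
  exact ⟨f, hf.mono h, hfa⟩

/-- primitive recursive functions -/
theorem PR.of_primrec {F : α → β} (hF : Primrec F) : PR O F := by
  refine ⟨fun n => Nat.pred (encode ((decode n : Option α).map F)),
    (PRIn.of_nat Nat.Primrec.pred).comp (PRIn.of_nat hF), fun a => ?_⟩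
  simp [encodek]

theorem PR.comp {F : β → γ} {G : α → β} (hF : PR O F) (hG : PR O G) : PR O fun a => F (G a) := by
  obtain ⟨f, hf, hfa⟩ := hF
  obtain ⟨g, hg, hga⟩ := hG
  exact ⟨fun n => f (g n), hf.comp hg, fun a => by
    show f (g (encode a)) = encode (F (G a))
    rw [hga, hfa]⟩

theorem PR.pair {F : α → β} {G : α → γ} (hF : PR O F) (hG : PR O G) : PR O fun a => (F a, G a) := by
  obtain ⟨f, hf, hfa⟩ := hF
  obtain ⟨g, hg, hga⟩ := hG
  exact ⟨_, hf.pair hg, fun a => by rw [hfa, hga]; rfl⟩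

theorem PR.id : PR O fun a : α => a := PR.of_primrec Primrec.id

theorem PR.const (b : β) : PR O fun _ : α => b := PR.of_primrec (Primrec.const b)

theorem PR.fst : PR O fun p : α × β => p.1 := PR.of_primrec Primrec.fst

theorem PR.snd : PR O fun p : α × β => p.2 := PR.of_primrec Primrec.snd

/-- application of a primitive recursive function of two variables -/
theorem PR.comp₂ {H : β → γ → δ} (hH : Primrec₂ H) {F : α → β} {G : α → γ} (hF : PR O F)
    (hG : PR O G) : PR O fun a => H (F a) (G a) :=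
  PR.comp (F := fun p : β × γ => H p.1 p.2) (PR.of_primrec hH) (hF.pair hG)

/-- recursion -/
theorem PR.rec {F : α → β} {G : α × (ℕ × β) → β} (hF : PR O F) (hG : PR O G) :
    PR O fun p : α × ℕ => (Nat.rec (F p.1) (fun y IH => G (p.1, (y, IH))) p.2 : β) := by
  obtain ⟨f, hf, hfa⟩ := hF
  obtain ⟨g, hg, hga⟩ := hG
  refine ⟨_, hf.prec hg, fun p => ?_⟩
  obtain ⟨a, n⟩ := p
  have h1 : encode (a, n) = Nat.pair (encode a) n := rfl
  rw [h1]
  simp only [Nat.unpaired, Nat.unpair_pair]
  induction n with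
  | zero => exact hfa a
  | succ n ih =>
    have ih' := ih rfl
    simp only at ih' ⊢
    rw [ih']
    exact hga (a, (n, Nat.rec (F a) (fun y IH => G (a, (y, IH))) n))

/-- iteration -/
theorem PR.iterate {F : α → β} {G : α × ℕ × β → β} {H : α → ℕ} (hF : PR O F) (hG : PR O G)
    (hH : PR O H) : PR O fun a => (Nat.rec (F a) (fun y IH => G (a, (y, IH))) (H a) : β) :=
  (PR.rec hF hG).comp (PR.id.pair hH)

theorem pr_nat_iff {f : ℕ → ℕ} : PR O f ↔ PRIn O f := by
  constructor
  · rintro ⟨g, hg, h⟩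
    exact hg.of_eq h
  · intro h
    exact ⟨f, h, fun _ => rfl⟩

theorem PR.add {F G : α → ℕ} (hF : PR O F) (hG : PR O G) : PR O fun a => F a + G a :=
  PR.comp₂ Primrec.nat_add hF hG

theorem PR.mul {F G : α → ℕ} (hF : PR O F) (hG : PR O G) : PR O fun a => F a * G a :=
  PR.comp₂ Primrec.nat_mul hF hG

theorem PR.list_ofFn {n : ℕ} {F : Fin n → α → β} (hF : ∀ i, PR O (F i)) :
    PR O fun a => List.ofFn fun i => F i a := by
  induction n with
  | zero =>
    exact (PR.const ([] : List β)).of_eq fun a => by simp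
  | succ n ih =>
    have h1 := PR.comp₂ Primrec.list_cons (hF 0) (ih (F := fun i => F i.succ) fun i => hF i.succ)
    exact h1.of_eq fun a => by simp

/-- vectors indexed by a finite type -/
def Vec (ι α : Type) : Type := ι → α

noncomputable instance instPrimcodableVec (ι : Type) [Fintype ι] (α : Type) [Primcodable α] :
    Primcodable (Vec ι α) :=
  Primcodable.ofEquiv (Fin (Fintype.card ι) → α)
    (Equiv.arrowCongr (Fintype.equivFin ι) (Equiv.refl α))

theorem primrec_vec_apply {ι : Type} [Fintype ι] {σ : Type} [Primcodable σ] (k : ι) :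
    Primrec fun x : Vec ι σ => x k := by
  let e : Vec ι σ ≃ (Fin (Fintype.card ι) → σ) :=
    Equiv.arrowCongr (Fintype.equivFin ι) (Equiv.refl σ)
  have h1 : Primrec (e : Vec ι σ → (Fin (Fintype.card ι) → σ)) :=
    Primrec.of_equiv (β := Vec ι σ) (e := e)
  have h2 := Primrec.fin_app.comp h1 (Primrec.const (Fintype.equivFin ι k))
  refine h2.of_eq fun x => ?_
  show x ((Fintype.equivFin ι).symm (Fintype.equivFin ι k)) = x k
  rw [Equiv.symm_apply_apply]

theorem PR.vec_apply {ι : Type} [Fintype ι] {σ : Type} [Primcodable σ] {F : α → Vec ι σ}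
    (hF : PR O F) (k : ι) : PR O fun a => F a k :=
  PR.comp (F := fun x : Vec ι σ => x k) (PR.of_primrec (primrec_vec_apply k)) hF

theorem PR.vec {ι : Type} [Fintype ι] {σ : Type} [Primcodable σ] {F : α → Vec ι σ}
    (hF : ∀ k, PR O fun a => F a k) : PR O F := by
  obtain ⟨f, hf, hfa⟩ := PR.list_ofFn (F := fun i a => F a ((Fintype.equivFin ι).symm i))
    fun i => hF ((Fintype.equivFin ι).symm i)
  refine ⟨f, hf, fun a => ?_⟩
  rw [hfa]
  have h1 : encode (F a) = encode (List.Vector.ofFn
      fun i => F a ((Fintype.equivFin ι).symm i)) := rfl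
  rw [h1]
  have h2 : ∀ v : List.Vector σ (Fintype.card ι), encode v = encode v.toList := fun v => rfl
  rw [h2]
  simp

end typed

end Pool.Agent.EllPR
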