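import Pool.Agent.EllPR.CA
import Pool.Agent.EllSch.FS

/-!
# Effective computation of sums over a lattice
-/

open Filter Topology

namespace Pool.Agent.EllPR

open Pool.Agent.EllSch Pool.Agent.EllSch.C1

variable {O : Set (ℕ → ℕ)}

/-! ### Enumeration of the pairs of integers -/

/-- the enumeration of the pairs of integers -/
def zz : ℕ ≃ ℤ × ℤ :=
  Nat.pairEquiv.symm.trans (Equiv.prodCongr Equiv.intEquivNat.symm Equiv.intEquivNat.symm)

theorem zz_apply (k : ℕ) :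
    zz k = (Equiv.intEquivNat.symm k.unpair.1, Equiv.intEquivNat.symm k.unpair.2) := rfl

/-- the code of the integer number `j` -/
def zc (j : ℕ) : T := (if j % 2 = 0 then j / 2 else 0, if j % 2 = 0 then 0 else j / 2 + 1, 0, 0, 0)

theorem intEquivNat_symm_even (m : ℕ) : Equiv.intEquivNat.symm (2 * m) = (m : ℤ) := by
  rw [Equiv.symm_apply_eq]
  rfl

theorem intEquivNat_symm_odd (m : ℕ) : Equiv.intEquivNat.symm (2 * m + 1) = Int.negSucc m := by
  rw [Equiv.symm_apply_eq]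
  rfl

theorem val_zc (j : ℕ) : val (zc j) = ((Equiv.intEquivNat.symm j : ℤ) : ℂ) := by
  obtain ⟨m, rfl | rfl⟩ := Nat.even_or_odd' j
  · rw [intEquivNat_symm_even]
    have h1 : (2 * m) % 2 = 0 := by omega
    have h2 : (2 * m) / 2 = m := by omega
    simp only [zc, h1, h2, if_true, val]
    push_cast
    ring
  · rw [intEquivNat_symm_odd]
    have h1 : (2 * m + 1) % 2 = 1 := by omega
    have h2 : (2 * m + 1) / 2 = m := by omega
    simp only [zc, h1, h2, val, one_ne_zero, if_false]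
    push_cast [Int.cast_negSucc]
    ring

theorem primrec_zc : Primrec zc := by
  have h1 : PrimrecPred fun j : ℕ => j % 2 = 0 :=
    Primrec.eq.comp (Primrec.nat_mod.comp Primrec.id (Primrec.const 2)) (Primrec.const 0)
  have h2 : Primrec fun j : ℕ => j / 2 := Primrec.nat_div.comp Primrec.id (Primrec.const 2)
  exact (Primrec.ite h1 h2 (Primrec.const 0)).pair
    ((Primrec.ite h1 (Primrec.const 0) (T.psucc h2)).pair
      ((Primrec.const 0).pair ((Primrec.const 0).pair (Primrec.const 0))))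

theorem intEquivNat_le {m : ℤ} {N : ℕ} (h : |(m : ℝ)| ≤ N) : Equiv.intEquivNat m ≤ 2 * N := by
  have h' : |m| ≤ (N : ℤ) := by
    have : ((|m| : ℤ) : ℝ) ≤ ((N : ℤ) : ℝ) := by
      rw [Int.cast_abs]; exact_mod_cast h
    exact_mod_cast this
  rcases m with m | m
  · have h1 : Equiv.intEquivNat (Int.ofNat m) = 2 * m := rfl
    rw [h1]
    have : |(Int.ofNat m)| = (m : ℤ) := abs_of_nonneg (Int.natCast_nonneg m)
    rw [this] at h'
    omega
  · have h1 : Equiv.intEquivNat (Int.negSucc m) = 2 * m + 1 := rfl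
    rw [h1]
    have : |(Int.negSucc m)| = (m : ℤ) + 1 := by
      rw [Int.negSucc_eq, abs_neg]
      exact abs_of_nonneg (by positivity)
    rw [this] at h'
    omega

/-- late pairs are large -/
theorem lt_nx {N k : ℕ} (hk : (2 * N + 1) ^ 2 ≤ k) : (N : ℝ) < nx (zz k) := by
  by_contra hcon
  push Not at hcon
  have h1 := intEquivNat_le ((abs_fst_le (zz k)).trans hcon)
  have h2 := intEquivNat_le ((abs_snd_le (zz k)).trans hcon)
  rw [zz_apply] at h1 h2
  simp only [Equiv.apply_symm_apply] at h1 h2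
  have h3 : k = Nat.pair k.unpair.1 k.unpair.2 := (Nat.pair_unpair k).symm
  have h4 := Nat.pair_lt_max_add_one_sq k.unpair.1 k.unpair.2
  rw [← h3] at h4
  have h5 : max k.unpair.1 k.unpair.2 + 1 ≤ 2 * N + 1 := by
    have := max_le h1 h2
    omega
  have h6 := Nat.pow_le_pow_left h5 2
  omega

/-- a slightly larger majorant -/
noncomputable def u2 (x : ℤ × ℤ) : ℝ := u3 x * √(1 + nx x)

theorem u2_nonneg (x : ℤ × ℤ) : 0 ≤ u2 x :=
  mul_nonneg (u3_pos x).le (Real.sqrt_nonneg _)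

theorem summable_u2 : Summable u2 := by
  have h1 := EisensteinSeries.summable_one_div_norm_rpow (k := 5 / 2) (by norm_num)
  have h2 : Summable fun x : ℤ × ℤ => ‖(![x.1, x.2] : Fin 2 → ℤ)‖ ^ (-(5 / 2) : ℝ) := by
    have := (finTwoArrowEquiv ℤ).symm.summable_iff.mpr h1
    exact this
  have h3 : Summable fun x : ℤ × ℤ => if x = 0 then (1 : ℝ) else 0 :=
    summable_of_ne_finset_zero (s := {0}) (fun x hx => by
      rw [Finset.mem_singleton] at hx
      rw [if_neg hx])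
  refine Summable.of_nonneg_of_le (fun x => u2_nonneg x) (fun x => ?_) (h2.add h3)
  by_cases hx : x = 0
  · subst hx
    simp [u2, u3, nx]
    exact Real.rpow_nonneg (norm_nonneg _) _
  · rw [if_neg hx, add_zero, Real.rpow_neg (norm_nonneg _)]
    have h4 : ‖(![x.1, x.2] : Fin 2 → ℤ)‖ ≤ nx x := by
      rw [pi_norm_le_iff_of_nonneg (nx_nonneg x)]
      intro i
      fin_cases i
      · simpa [Int.norm_eq_abs] using abs_fst_le x
      · simpa [Int.norm_eq_abs] using abs_snd_le x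
    have h5 : 0 < ‖(![x.1, x.2] : Fin 2 → ℤ)‖ := by
      rw [norm_pos_iff]
      intro h
      apply hx
      have h6 := congrFun h 0
      have h7 := congrFun h 1
      simp at h6 h7
      exact Prod.ext h6 h7
    have hn : 0 < 1 + nx x := by linarith [nx_nonneg x]
    have h6 : u2 x = ((1 + nx x) ^ (5 / 2 : ℝ))⁻¹ := by
      unfold u2 u3
      rw [Real.sqrt_eq_rpow, one_div, ← Real.rpow_natCast (1 + nx x) 3, ← Real.rpow_neg hn.le,
        ← Real.rpow_neg hn.le, ← Real.rpow_add hn]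
      congr 1
      norm_num
    rw [h6]
    apply inv_anti₀ (Real.rpow_pos_of_pos h5 _)
    exact Real.rpow_le_rpow h5.le (by linarith) (by norm_num)

theorem u3_le_u2 {x : ℤ × ℤ} {n : ℕ} (h : ((n : ℝ) + 1) ^ 2 ≤ 1 + nx x) :
    u3 x ≤ u2 x / ((n : ℝ) + 1) := by
  have h1 : (0 : ℝ) < (n : ℝ) + 1 := by positivity
  rw [le_div_iff₀ h1, u2]
  apply mul_le_mul_of_nonneg_left _ (u3_pos x).le
  exact Real.le_sqrt_of_sq_le h

/-- the length of the partial sum -/
def len (n : ℕ) : ℕ := (2 * ((n + 1) * (n + 1)) + 1) * (2 * ((n + 1) * (n + 1)) + 1)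

theorem primrec_len : Primrec len := by
  have h1 : Primrec fun n : ℕ => n + 1 := T.psucc Primrec.id
  have h2 : Primrec fun n : ℕ => 2 * ((n + 1) * (n + 1)) + 1 :=
    T.psucc (T.pmul (Primrec.const 2) (T.pmul h1 h1))
  exact T.pmul h2 h2

/-- the tail of a lattice sum -/
theorem tail_bound {f : ℤ × ℤ → ℂ} {K : ℝ} (hf : ∀ x, ‖f x‖ ≤ K * u3 x) (n : ℕ) :
    ‖∑' x, f x - ∑ k ∈ Finset.range (len n), f (zz k)‖ ≤ K * (∑' k, u2 (zz k)) / ((n : ℝ) + 1) := by
  have hK : 0 ≤ K := by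
    have h1 := (norm_nonneg _).trans (hf 0)
    have h2 := u3_pos 0
    by_contra hcon
    push Not at hcon
    nlinarith
  have hsf : Summable f := Summable.of_norm_bounded (summable_u3.mul_left K) hf
  have hsz : Summable fun k => f (zz k) := (zz.summable_iff).2 hsf
  have hu : Summable fun k => u2 (zz k) := (zz.summable_iff).2 summable_u2
  have h1 : ∑' x, f x = ∑' k, f (zz k) := (zz.tsum_eq f).symm
  rw [h1, ← hsz.sum_add_tsum_nat_add (len n), add_sub_cancel_left]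
  have hn0 : (0 : ℝ) < (n : ℝ) + 1 := by positivity
  have h2 : ∀ k, ‖f (zz (k + len n))‖ ≤ K * u2 (zz (k + len n)) / ((n : ℝ) + 1) := by
    intro k
    refine (hf _).trans ?_
    rw [mul_div_assoc]
    apply mul_le_mul_of_nonneg_left _ hK
    apply u3_le_u2
    have h3 : (2 * ((n + 1) * (n + 1)) + 1) ^ 2 ≤ k + len n := by
      unfold len
      nlinarith [Nat.zero_le k]
    have h4 := lt_nx h3
    push_cast at h4
    nlinarith
  have hs1 : Summable fun k => u2 (zz (k + len n)) := (summable_nat_add_iff (len n)).2 hu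
  have hs2 : Summable fun k => K * u2 (zz (k + len n)) / ((n : ℝ) + 1) :=
    (hs1.mul_left K).div_const _
  refine (tsum_of_norm_bounded hs2.hasSum h2).trans ?_
  rw [tsum_div_const, tsum_mul_left]
  apply div_le_div_of_nonneg_right _ hn0.le
  apply mul_le_mul_of_nonneg_left _ hK
  rw [← hu.sum_add_tsum_nat_add (len n)]
  exact le_add_of_nonneg_left (Finset.sum_nonneg fun k _ => u2_nonneg _)

/-- lattice sums with an explicit majorant are effectively computable -/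
theorem ca_tsum {ι : Type} [Fintype ι] {b : ι → ℂ} {F : (ι → ℂ) → ℂ}
    (f : ℤ × ℤ → (ι → ℂ) → ℂ) (hF : ∀ v, F v = ∑' x, f x v) {L : (ι → ℂ) →L[ℂ] ℂ}
    (hL : HasStrictFDerivAt F L b) {B : ℕ × Vec ι T → T} (hB : PR O B)
    (hBf : ∀ k x, val (B (k, x)) = f (zz k) (vv x)) {K : ℝ}
    (hK : ∀ᶠ v in 𝓝 b, ∀ x, ‖f x v‖ ≤ K * u3 x) : CA O F b := by
  obtain ⟨r, hr, hrK⟩ := Metric.eventually_nhds_iff.1 hK
  let G : (Vec ι T) × (ℕ × T) → T := fun p => T.add p.2.2 (B (p.2.1, p.1))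
  have hG : PR O G := by
    refine PR.comp₂ T.primrec_add (PR.snd.comp PR.snd) (hB.comp ?_)
    exact (PR.fst.comp PR.snd).pair PR.fst
  let S : ℕ × Vec ι T → T := fun p => Nat.rec T.zero (fun y IH => G (p.2, (y, IH))) (len p.1)
  have hS : PR O S := by
    have h1 := PR.rec (O := O) (F := fun _ : Vec ι T => T.zero) (G := G) (PR.const _) hG
    have h2 : PR O fun p : ℕ × Vec ι T => (p.2, len p.1) :=
      PR.snd.pair ((PR.of_primrec primrec_len).comp PR.fst)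
    exact h1.comp h2
  have hval : ∀ n x, val (S (n, x)) = ∑ k ∈ Finset.range (len n), f (zz k) (vv x) := by
    intro n x
    have key : ∀ m : ℕ, val (Nat.rec T.zero (fun y IH => G (x, (y, IH))) m : T) =
        ∑ k ∈ Finset.range m, f (zz k) (vv x) := by
      intro m
      induction m with
      | zero => simp [T.val_zero]
      | succ m ih =>
        rw [Finset.sum_range_succ, ← ih, ← hBf]
        exact T.val_add _ _
    exact key (len n)
  refine ⟨lip_of_strict hL, r, hr, K * (∑' k, u2 (zz k)), S, hS, fun n x hx => ?_⟩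
  rw [hval, hF]
  exact tail_bound (hrK (by rwa [dist_eq_norm])) n

/-! ### The Weierstrass functions -/

section weier

/-- code of a lattice point -/
def latc (k : ℕ) (a b : T) : T :=
  T.add (T.mul (zc k.unpair.1) a) (T.mul (zc k.unpair.2) b)

theorem val_latc (k : ℕ) (a b : T) : val (latc k a b) = lat (val a) (val b) (zz k) := by
  rw [latc, T.val_add, T.val_mul, T.val_mul, val_zc, val_zc]
  rfl

theorem PR.latc {α : Type*} [Primcodable α] {k : α → ℕ} {a b : α → T} (hk : PR O k) (ha : PR O a)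
    (hb : PR O b) : PR O fun p => latc (k p) (a p) (b p) := by
  have h1 : PR O fun p => (k p).unpair.1 :=
    (PR.of_primrec (Primrec.fst.comp Primrec.unpair)).comp hk
  have h2 : PR O fun p => (k p).unpair.2 :=
    (PR.of_primrec (Primrec.snd.comp Primrec.unpair)).comp hk
  exact PR.comp₂ T.primrec_add
    (PR.comp₂ T.primrec_mul ((PR.of_primrec primrec_zc).comp h1) ha)
    (PR.comp₂ T.primrec_mul ((PR.of_primrec primrec_zc).comp h2) hb)

section ops

variable {α : Type*} [Primcodable α] {x y : α → T}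

theorem PR.tadd (hx : PR O x) (hy : PR O y) : PR O fun p => T.add (x p) (y p) :=
  PR.comp₂ T.primrec_add hx hy
theorem PR.tmul (hx : PR O x) (hy : PR O y) : PR O fun p => T.mul (x p) (y p) :=
  PR.comp₂ T.primrec_mul hx hy
theorem PR.tneg (hx : PR O x) : PR O fun p => T.neg (x p) :=
  (PR.of_primrec T.primrec_neg).comp hx
theorem PR.tinv (hx : PR O x) : PR O fun p => T.inv (x p) :=
  (PR.of_primrec T.primrec_inv).comp hx

end ops

/-- powers of codes -/
def tpow (x : T) : ℕ → T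
  | 0 => T.one
  | n + 1 => T.mul (tpow x n) x

theorem val_tpow (x : T) (n : ℕ) : val (tpow x n) = val x ^ n := by
  induction n with
  | zero => simp [tpow, T.val_one]
  | succ n ih => rw [tpow, T.val_mul, ih, pow_succ]

theorem PR.tpow {α : Type*} [Primcodable α] {x : α → T} (hx : PR O x) (n : ℕ) :
    PR O fun p => tpow (x p) n := by
  induction n with
  | zero => exact PR.const _
  | succ n ih => exact PR.tmul ih hx

attribute [local irreducible] T.add T.mul T.neg T.inv val tpow latc T.ofNat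

/-- the coordinates as a triple -/
noncomputable def E3 : (Fin 3 → ℂ) →L[ℂ] ℂ × ℂ × ℂ :=
  (ContinuousLinearMap.proj 0).prod
    ((ContinuousLinearMap.proj 1).prod (ContinuousLinearMap.proj 2))

theorem E3_apply (v : Fin 3 → ℂ) : E3 v = (v 0, v 1, v 2) := rfl

noncomputable def E2 : (Fin 2 → ℂ) →L[ℂ] ℂ × ℂ :=
  (ContinuousLinearMap.proj 0).prod (ContinuousLinearMap.proj 1)

theorem E2_apply (v : Fin 2 → ℂ) : E2 v = (v 0, v 1) := rfl

theorem ev_Bd3 {v : Fin 3 → ℂ} (h : Ind (v 0) (v 1)) (hz : Off (v 0) (v 1) (v 2)) :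
    ∃ c M : ℝ, ∀ᶠ u : Fin 3 → ℂ in 𝓝 v, ∀ x : ℤ × ℤ,
      Bd c M x (u 2 - lat (u 0) (u 1) x) (lat (u 0) (u 1) x) (u 2) := by
  obtain ⟨c, M, h1⟩ := ev_Bd h hz
  have ht : Tendsto E3 (𝓝 v) (𝓝 (v 0, v 1, v 2)) := E3.continuous.tendsto v
  exact ⟨c, M, ht.eventually h1⟩

theorem strict3c (g : ℂ → ℂ → ℂ → ℂ) {v : Fin 3 → ℂ} {L : ℂ × ℂ × ℂ →L[ℂ] ℂ}
    (hL : HasStrictFDerivAt (fun v : ℂ × ℂ × ℂ => g v.1 v.2.1 v.2.2) L (v 0, v 1, v 2)) :
    HasStrictFDerivAt (fun u : Fin 3 → ℂ => g (u 0) (u 1) (u 2)) (L.comp E3) v := by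
  rw [← E3_apply] at hL
  exact HasStrictFDerivAt.comp v (g := fun v : ℂ × ℂ × ℂ => g v.1 v.2.1 v.2.2) hL
    E3.hasStrictFDerivAt

theorem strict2c (g : ℂ → ℂ → ℂ) {v : Fin 2 → ℂ} {L : ℂ × ℂ →L[ℂ] ℂ}
    (hL : HasStrictFDerivAt (fun v : ℂ × ℂ => g v.1 v.2) L (v 0, v 1)) :
    HasStrictFDerivAt (fun u : Fin 2 → ℂ => g (u 0) (u 1)) (L.comp E2) v := by
  rw [← E2_apply] at hL
  exact HasStrictFDerivAt.comp v (g := fun v : ℂ × ℂ => g v.1 v.2) hL
    E2.hasStrictFDerivAt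

theorem ca_wp0 {v : Fin 3 → ℂ} (h : Ind (v 0) (v 1)) (hz : Off (v 0) (v 1) (v 2)) :
    CA O (fun u : Fin 3 → ℂ => wp (u 0) (u 1) (u 2)) v := by
  obtain ⟨L, hL, -⟩ := fs_wp h hz
  obtain ⟨c, M, hB⟩ := ev_Bd3 h hz
  refine ca_tsum (fun x u => 1 / (u 2 - lat (u 0) (u 1) x) ^ 2 - 1 / lat (u 0) (u 1) x ^ 2)
    (fun u => rfl) (strict3c wp hL) (B := fun p => T.add
    (T.inv (tpow (T.add (p.2 2) (T.neg (latc p.1 (p.2 0) (p.2 1)))) 2))
    (T.neg (T.inv (tpow (latc p.1 (p.2 0) (p.2 1)) 2)))) ?_ ?_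
    (K := 2 * M / c ^ 3 + 1 / c ^ 2) ?_
  · have hl : PR O fun p : ℕ × Vec (Fin 3) T => latc p.1 (p.2 0) (p.2 1) :=
      PR.latc PR.fst (PR.vec_apply PR.snd 0) (PR.vec_apply PR.snd 1)
    exact PR.tadd (PR.tinv (PR.tpow (PR.tadd (PR.vec_apply PR.snd 2) (PR.tneg hl)) 2))
      (PR.tneg (PR.tinv (PR.tpow hl 2)))
  · intro k x
    simp only [T.val_add, T.val_neg, T.val_inv, val_tpow, val_latc, vv]
    ring
  · filter_upwards [hB] with u hu x
    exact (hu x).b5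

theorem ca_wq0 {v : Fin 3 → ℂ} (h : Ind (v 0) (v 1)) (hz : Off (v 0) (v 1) (v 2)) :
    CA O (fun u : Fin 3 → ℂ => wq (u 0) (u 1) (u 2)) v := by
  obtain ⟨L, hL, -⟩ := fs_wq h hz
  obtain ⟨c, M, hB⟩ := ev_Bd3 h hz
  refine ca_tsum (fun x u => -2 / (u 2 - lat (u 0) (u 1) x) ^ 3)
    (fun u => rfl) (strict3c wq hL) (B := fun p => T.mul (T.neg (T.ofNat 2))
    (T.inv (tpow (T.add (p.2 2) (T.neg (latc p.1 (p.2 0) (p.2 1)))) 3))) ?_ ?_
    (K := ‖(-2 : ℂ)‖ / c ^ 3) ?_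
  · have hl : PR O fun p : ℕ × Vec (Fin 3) T => latc p.1 (p.2 0) (p.2 1) :=
      PR.latc PR.fst (PR.vec_apply PR.snd 0) (PR.vec_apply PR.snd 1)
    exact PR.tmul (PR.const _)
      (PR.tinv (PR.tpow (PR.tadd (PR.vec_apply PR.snd 2) (PR.tneg hl)) 3))
  · intro k x
    simp only [T.val_add, T.val_mul, T.val_ofNat, T.val_neg, T.val_inv, val_tpow, val_latc, vv]
    push_cast
    ring
  · filter_upwards [hB] with u hu x
    exact (hu x).b4 (-2)

theorem ca_wz0 {v : Fin 3 → ℂ} (h : Ind (v 0) (v 1)) (hz : Off (v 0) (v 1) (v 2)) :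
    CA O (fun u : Fin 3 → ℂ => wz (u 0) (u 1) (u 2)) v := by
  obtain ⟨L, hL, -⟩ := fs_wz h hz
  obtain ⟨c, M, hB⟩ := ev_Bd3 h hz
  refine ca_tsum (fun x u => 1 / (u 2 - lat (u 0) (u 1) x) + 1 / lat (u 0) (u 1) x +
    u 2 / lat (u 0) (u 1) x ^ 2) (fun u => rfl) (strict3c wz hL) (B := fun p => T.add (T.add
    (T.inv (T.add (p.2 2) (T.neg (latc p.1 (p.2 0) (p.2 1)))))
    (T.inv (latc p.1 (p.2 0) (p.2 1))))
    (T.mul (p.2 2) (T.inv (tpow (latc p.1 (p.2 0) (p.2 1)) 2)))) ?_ ?_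
    (K := M ^ 2 / c ^ 3 + 1 / c) ?_
  · have hl : PR O fun p : ℕ × Vec (Fin 3) T => latc p.1 (p.2 0) (p.2 1) :=
      PR.latc PR.fst (PR.vec_apply PR.snd 0) (PR.vec_apply PR.snd 1)
    exact PR.tadd (PR.tadd (PR.tinv (PR.tadd (PR.vec_apply PR.snd 2) (PR.tneg hl))) (PR.tinv hl))
      (PR.tmul (PR.vec_apply PR.snd 2) (PR.tinv (PR.tpow hl 2)))
  · intro k x
    simp only [T.val_add, T.val_mul, T.val_neg, T.val_inv, val_tpow, val_latc, vv]
    ring
  · filter_upwards [hB] with u hu x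
    exact (hu x).b6

theorem ev_l2 {v : Fin 2 → ℂ} (h : Ind (v 0) (v 1)) :
    ∃ c > 0, ∀ᶠ u : Fin 2 → ℂ in 𝓝 v, ∀ x : ℤ × ℤ, ‖(lat (u 0) (u 1) x)⁻¹‖ ≤ rr c x := by
  obtain ⟨c, hc, h1⟩ := ev_l h
  have ht : Tendsto E2 (𝓝 v) (𝓝 (v 0, v 1)) := E2.continuous.tendsto v
  refine ⟨c, hc, ?_⟩
  filter_upwards [ht.eventually h1] with u hu x
  exact l_inv_le hc (hu x) fun hx => by rw [hx, C1.lat_zero]

theorem ca_G0 {v : Fin 2 → ℂ} (h : Ind (v 0) (v 1)) (k : ℕ) (hk : 1 ≤ k) :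
    CA O (fun u : Fin 2 → ℂ => ∑' x : ℤ × ℤ, 1 / lat (u 0) (u 1) x ^ (k + 3)) v := by
  obtain ⟨L, hL, -⟩ := c1_G (C := 1) h k hk
  have hL' : HasStrictFDerivAt (fun v : ℂ × ℂ =>
      (fun a b => ∑' x : ℤ × ℤ, 1 / lat a b x ^ (k + 3)) v.1 v.2) L (v 0, v 1) := by
    simpa only [one_mul] using hL
  obtain ⟨c, hc, hB⟩ := ev_l2 h
  refine ca_tsum (fun x u => 1 / lat (u 0) (u 1) x ^ (k + 3)) (fun u => rfl)
    (strict2c (fun a b => ∑' x : ℤ × ℤ, 1 / lat a b x ^ (k + 3)) hL')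
    (B := fun p => T.inv (tpow (latc p.1 (p.2 0) (p.2 1)) (k + 3))) ?_ ?_
    (K := (1 / c) ^ k / c ^ 3) ?_
  · have hl : PR O fun p : ℕ × Vec (Fin 2) T => latc p.1 (p.2 0) (p.2 1) :=
      PR.latc PR.fst (PR.vec_apply PR.snd 0) (PR.vec_apply PR.snd 1)
    exact PR.tinv (PR.tpow hl _)
  · intro k x
    simp only [T.val_inv, val_tpow, val_latc, vv]
    ring
  · filter_upwards [hB] with u hu x
    exact b7 hc (hu x) k

theorem isPR_natCast (n : ℕ) : IsPR O (n : ℂ) := by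
  rw [← T.val_ofNat]; exact isPR_val _

theorem ca_G20 {v : Fin 2 → ℂ} (h : Ind (v 0) (v 1)) :
    CA O (fun u : Fin 2 → ℂ => G2 (u 0) (u 1)) v :=
  (CA.const (isPR_natCast 60) v).mul (ca_G0 h 1 le_rfl)

theorem ca_G30 {v : Fin 2 → ℂ} (h : Ind (v 0) (v 1)) :
    CA O (fun u : Fin 2 → ℂ => G3 (u 0) (u 1)) v :=
  (CA.const (isPR_natCast 140) v).mul (ca_G0 h 3 (by norm_num))

variable {ι : Type} [Fintype ι] {A B Z : (ι → ℂ) → ℂ} {v : ι → ℂ}

theorem ca_fun3 (g : ℂ → ℂ → ℂ → ℂ) (hA : CA O A v) (hB : CA O B v) (hZ : CA O Z v)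
    (hg : CA O (fun u : Fin 3 → ℂ => g (u 0) (u 1) (u 2)) ![A v, B v, Z v]) :
    CA O (fun v => g (A v) (B v) (Z v)) v := by
  have h1 : CA O (fun w => (fun u : Fin 3 → ℂ => g (u 0) (u 1) (u 2))
      fun k => (![A, B, Z] : Fin 3 → (ι → ℂ) → ℂ) k w) v := by
    apply CA.comp (g := fun u : Fin 3 → ℂ => g (u 0) (u 1) (u 2)) (F := ![A, B, Z])
    · have e : (fun k => (![A, B, Z] : Fin 3 → (ι → ℂ) → ℂ) k v) = ![A v, B v, Z v] := by
        funext k; fin_cases k <;> rfl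
      rw [e]; exact hg
    · intro k
      fin_cases k
      · exact hA
      · exact hB
      · exact hZ
  exact h1

theorem ca_fun2 (g : ℂ → ℂ → ℂ) (hA : CA O A v) (hB : CA O B v)
    (hg : CA O (fun u : Fin 2 → ℂ => g (u 0) (u 1)) ![A v, B v]) :
    CA O (fun v => g (A v) (B v)) v := by
  have h1 : CA O (fun w => (fun u : Fin 2 → ℂ => g (u 0) (u 1))
      fun k => (![A, B] : Fin 2 → (ι → ℂ) → ℂ) k w) v := by
    apply CA.comp (g := fun u : Fin 2 → ℂ => g (u 0) (u 1)) (F := ![A, B])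
    · have e : (fun k => (![A, B] : Fin 2 → (ι → ℂ) → ℂ) k v) = ![A v, B v] := by
        funext k; fin_cases k <;> rfl
      rw [e]; exact hg
    · intro k
      fin_cases k
      · exact hA
      · exact hB
  exact h1

theorem ca_wp (hA : CA O A v) (hB : CA O B v) (hZ : CA O Z v) (h : Ind (A v) (B v))
    (hz : Off (A v) (B v) (Z v)) : CA O (fun v => wp (A v) (B v) (Z v)) v :=
  ca_fun3 wp hA hB hZ (ca_wp0 (v := ![A v, B v, Z v]) h hz)

theorem ca_wq (hA : CA O A v) (hB : CA O B v) (hZ : CA O Z v) (h : Ind (A v) (B v))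
    (hz : Off (A v) (B v) (Z v)) : CA O (fun v => wq (A v) (B v) (Z v)) v :=
  ca_fun3 wq hA hB hZ (ca_wq0 (v := ![A v, B v, Z v]) h hz)

theorem ca_wz (hA : CA O A v) (hB : CA O B v) (hZ : CA O Z v) (h : Ind (A v) (B v))
    (hz : Off (A v) (B v) (Z v)) : CA O (fun v => wz (A v) (B v) (Z v)) v :=
  ca_fun3 wz hA hB hZ (ca_wz0 (v := ![A v, B v, Z v]) h hz)

theorem ca_G2 (hA : CA O A v) (hB : CA O B v) (h : Ind (A v) (B v)) :
    CA O (fun v => G2 (A v) (B v)) v :=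
  ca_fun2 G2 hA hB (ca_G20 (v := ![A v, B v]) h)

theorem ca_G3 (hA : CA O A v) (hB : CA O B v) (h : Ind (A v) (B v)) :
    CA O (fun v => G3 (A v) (B v)) v :=
  ca_fun2 G3 hA hB (ca_G30 (v := ![A v, B v]) h)

theorem ca_eta1 (hA : CA O A v) (hB : CA O B v) (h : Ind (A v) (B v)) :
    CA O (fun v => eta1 (A v) (B v)) v := by
  have h2 : (2 : ℂ) ≠ 0 := two_ne_zero
  have c2 : CA O (fun _ : ι → ℂ => (2 : ℂ)) v := CA.const (isPR_natCast 2) v
  exact c2.mul (ca_wz hA hB (hA.div c2 h2) h (FS.off_half_a h))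

theorem ca_eta2 (hA : CA O A v) (hB : CA O B v) (h : Ind (A v) (B v)) :
    CA O (fun v => eta2 (A v) (B v)) v := by
  have h2 : (2 : ℂ) ≠ 0 := two_ne_zero
  have c2 : CA O (fun _ : ι → ℂ => (2 : ℂ)) v := CA.const (isPR_natCast 2) v
  exact c2.mul (ca_wz hA hB (hB.div c2 h2) h (FS.off_half_b h))

end weier

end Pool.Agent.EllPR
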