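import Pool.Agent.EllPR.EssentialPR
import Pool.Agent.EllSch.Bridge

/-! # The field of primitive recursive numbers in plain terms -/

open Encodable

namespace Pool.Agent.EllPR

/-- a component of a function with values in the codes -/
theorem prin_comp {O : Set (ℕ → ℕ)} {A : ℕ → T} (hA : PR O A) {π : T → ℕ} (hπ : Primrec π) :
    PRIn O fun n => π (A n) :=
  pr_nat_iff.1 ((PR.of_primrec hπ).comp hA)

theorem isPR_iff {O : Set (ℕ → ℕ)} {z : ℂ} : IsPR O z ↔ ∃ p q r s t : ℕ → ℕ,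
    PRIn O p ∧ PRIn O q ∧ PRIn O r ∧ PRIn O s ∧ PRIn O t ∧ ∀ n : ℕ,
      ‖z - (((p n : ℂ) - q n) + ((r n : ℂ) - s n) * Complex.I) / ((t n : ℂ) + 1)‖ ≤
        1 / ((n : ℝ) + 1) := by
  constructor
  · rintro ⟨A, hA, h⟩
    exact ⟨_, _, _, _, _, prin_comp hA T.pr1, prin_comp hA T.pr2, prin_comp hA T.pr3,
      prin_comp hA T.pr4, prin_comp hA T.pr5, h⟩
  · rintro ⟨p, q, r, s, t, hp, hq, hr, hs, ht, h⟩
    exact ⟨fun n => (p n, q n, r n, s n, t n), (pr_nat_iff.2 hp).pair ((pr_nat_iff.2 hq).pair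
      ((pr_nat_iff.2 hr).pair ((pr_nat_iff.2 hs).pair (pr_nat_iff.2 ht)))), h⟩

end Pool.Agent.EllPR
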