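import Pool.Agent.EllPR.Rec

/-!
# Codes of Gaussian rationals
-/

open Encodable

namespace Pool.Agent.EllPR

/-- codes of Gaussian rationals -/
abbrev T : Type := ℕ × ℕ × ℕ × ℕ × ℕ

/-- the number `((p - q) + (r - s) i) / (t + 1)` -/
noncomputable def val (x : T) : ℂ :=
  (((x.1 : ℂ) - x.2.1) + ((x.2.2.1 : ℂ) - x.2.2.2.1) * Complex.I) / ((x.2.2.2.2 : ℂ) + 1)

/-- the value of a vector of codes -/
noncomputable def vv {ι : Type} (x : Vec ι T) : ι → ℂ := fun k => val (x k)

namespace T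

theorem den_ne (n : ℕ) : ((n : ℂ) + 1) ≠ 0 := by
  exact_mod_cast Nat.succ_ne_zero n

def zero : T := (0, 0, 0, 0, 0)
def one : T := (1, 0, 0, 0, 0)
def I : T := (0, 0, 1, 0, 0)
def ofNat (n : ℕ) : T := (n, 0, 0, 0, 0)

def neg (x : T) : T := (x.2.1, x.1, x.2.2.2.1, x.2.2.1, x.2.2.2.2)

def add (x y : T) : T :=
  (x.1 * (y.2.2.2.2 + 1) + y.1 * (x.2.2.2.2 + 1),
    x.2.1 * (y.2.2.2.2 + 1) + y.2.1 * (x.2.2.2.2 + 1),
    x.2.2.1 * (y.2.2.2.2 + 1) + y.2.2.1 * (x.2.2.2.2 + 1),
    x.2.2.2.1 * (y.2.2.2.2 + 1) + y.2.2.2.1 * (x.2.2.2.2 + 1),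
    x.2.2.2.2 * y.2.2.2.2 + x.2.2.2.2 + y.2.2.2.2)

def mul (x y : T) : T :=
  (x.1 * y.1 + x.2.1 * y.2.1 + x.2.2.1 * y.2.2.2.1 + x.2.2.2.1 * y.2.2.1,
    x.1 * y.2.1 + x.2.1 * y.1 + x.2.2.1 * y.2.2.1 + x.2.2.2.1 * y.2.2.2.1,
    x.1 * y.2.2.1 + x.2.1 * y.2.2.2.1 + x.2.2.1 * y.1 + x.2.2.2.1 * y.2.1,
    x.1 * y.2.2.2.1 + x.2.1 * y.2.2.1 + x.2.2.1 * y.2.1 + x.2.2.2.1 * y.1,
    x.2.2.2.2 * y.2.2.2.2 + x.2.2.2.2 + y.2.2.2.2)

/-- the square of the distance of two natural numbers -/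
def dsq (p q : ℕ) : ℕ := ((p - q) + (q - p)) * ((p - q) + (q - p))

/-- the norm of the numerator -/
def nrm (x : T) : ℕ := dsq x.1 x.2.1 + dsq x.2.2.1 x.2.2.2.1

def inv (x : T) : T :=
  ((x.2.2.2.2 + 1) * x.1 * min (nrm x) 1, (x.2.2.2.2 + 1) * x.2.1 * min (nrm x) 1,
    (x.2.2.2.2 + 1) * x.2.2.2.1 * min (nrm x) 1, (x.2.2.2.2 + 1) * x.2.2.1 * min (nrm x) 1,
    nrm x - 1)

theorem val_zero : val zero = 0 := by simp [val, zero]
theorem val_one : val one = 1 := by simp [val, one]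
theorem val_I : val I = Complex.I := by simp [val, I]
theorem val_ofNat (n : ℕ) : val (ofNat n) = n := by simp [val, ofNat]

theorem val_neg (x : T) : val (neg x) = -val x := by
  simp only [val, neg]
  ring

theorem val_add (x y : T) : val (add x y) = val x + val y := by
  obtain ⟨p, q, r, s, t⟩ := x
  obtain ⟨p', q', r', s', t'⟩ := y
  simp only [val, add]
  have h1 := den_ne t
  have h2 := den_ne t'
  have h3 : ((t * t' + t + t' : ℕ) : ℂ) + 1 = ((t : ℂ) + 1) * (t' + 1) := by push_cast; ring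
  rw [h3]
  push_cast
  field_simp
  ring

theorem val_mul (x y : T) : val (mul x y) = val x * val y := by
  obtain ⟨p, q, r, s, t⟩ := x
  obtain ⟨p', q', r', s', t'⟩ := y
  simp only [val, mul]
  have h1 := den_ne t
  have h2 := den_ne t'
  have h3 : ((t * t' + t + t' : ℕ) : ℂ) + 1 = ((t : ℂ) + 1) * (t' + 1) := by push_cast; ring
  rw [h3]
  push_cast
  field_simp
  linear_combination -(((r : ℂ) - s) * (r' - s')) * Complex.I_sq

theorem cast_dsq (p q : ℕ) : ((dsq p q : ℕ) : ℂ) = ((p : ℂ) - q) ^ 2 := by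
  unfold dsq
  rcases le_total p q with h | h
  · rw [Nat.sub_eq_zero_of_le h, zero_add]
    push_cast [Nat.cast_sub h]
    ring
  · rw [Nat.sub_eq_zero_of_le h, add_zero]
    push_cast [Nat.cast_sub h]
    ring

theorem val_inv (x : T) : val (inv x) = (val x)⁻¹ := by
  obtain ⟨p, q, r, s, t⟩ := x
  have hn : ((nrm (p, q, r, s, t) : ℕ) : ℂ) = ((p : ℂ) - q) ^ 2 + ((r : ℂ) - s) ^ 2 := by
    unfold nrm
    push_cast [cast_dsq]
    ring
  have hn' : ((nrm (p, q, r, s, t) : ℕ) : ℂ) =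
      (((p : ℂ) - q) + ((r : ℂ) - s) * Complex.I) * (((p : ℂ) - q) - ((r : ℂ) - s) * Complex.I) := by
    rw [hn]
    linear_combination (((r : ℂ) - s) ^ 2) * Complex.I_sq
  have ht := den_ne t
  rcases Nat.eq_zero_or_pos (nrm (p, q, r, s, t)) with h0 | h0
  · -- the number is zero
    have hz : (((p : ℂ) - q) + ((r : ℂ) - s) * Complex.I) = 0 := by
      have h1 : dsq p q = 0 ∧ dsq r s = 0 := by
        have : dsq p q + dsq r s = 0 := h0
        omega
      have h2 : (p : ℂ) - q = 0 := by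
        have := cast_dsq p q
        rw [h1.1] at this
        exact pow_eq_zero_iff (two_ne_zero) |>.1 (by simpa using this.symm)
      have h3 : (r : ℂ) - s = 0 := by
        have := cast_dsq r s
        rw [h1.2] at this
        exact pow_eq_zero_iff (two_ne_zero) |>.1 (by simpa using this.symm)
      rw [h2, h3]; ring
    simp only [val, inv, h0, hz]
    simp
  · have h1 : min (nrm (p, q, r, s, t)) 1 = 1 := by omega
    have h2 : ((nrm (p, q, r, s, t) - 1 : ℕ) : ℂ) + 1 = (nrm (p, q, r, s, t) : ℕ) := by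
      rw [Nat.cast_sub h0]; push_cast; ring
    have h3 : ((nrm (p, q, r, s, t) : ℕ) : ℂ) ≠ 0 := by exact_mod_cast h0.ne'
    have h4 := h3
    rw [hn'] at h4
    have h5 := left_ne_zero_of_mul h4
    have h6 := right_ne_zero_of_mul h4
    simp only [val, inv, h1, mul_one]
    rw [h2, hn']
    push_cast
    have h7 : ((t : ℂ) + 1) * p - (t + 1) * q + ((t + 1) * s - (t + 1) * r) * Complex.I =
        (t + 1) * (((p : ℂ) - q) - ((r : ℂ) - s) * Complex.I) := by ring
    rw [h7]
    generalize ((p : ℂ) - q) + ((r : ℂ) - s) * Complex.I = U at *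
    generalize ((p : ℂ) - q) - ((r : ℂ) - s) * Complex.I = V at *
    field_simp

/-! ### Primitive recursiveness -/

theorem pr1 : Primrec fun x : T => x.1 := Primrec.fst
theorem pr2 : Primrec fun x : T => x.2.1 := Primrec.fst.comp Primrec.snd
theorem pr3 : Primrec fun x : T => x.2.2.1 := Primrec.fst.comp (Primrec.snd.comp Primrec.snd)
theorem pr4 : Primrec fun x : T => x.2.2.2.1 :=
  Primrec.fst.comp (Primrec.snd.comp (Primrec.snd.comp Primrec.snd))
theorem pr5 : Primrec fun x : T => x.2.2.2.2 :=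
  Primrec.snd.comp (Primrec.snd.comp (Primrec.snd.comp Primrec.snd))

section
variable {α : Type*} [Primcodable α] {f g : α → ℕ}

theorem padd (hf : Primrec f) (hg : Primrec g) : Primrec fun a => f a + g a :=
  Primrec.nat_add.comp hf hg
theorem pmul (hf : Primrec f) (hg : Primrec g) : Primrec fun a => f a * g a :=
  Primrec.nat_mul.comp hf hg
theorem psub (hf : Primrec f) (hg : Primrec g) : Primrec fun a => f a - g a :=
  Primrec.nat_sub.comp hf hg
theorem psucc (hf : Primrec f) : Primrec fun a => f a + 1 := Primrec.succ.comp hf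
theorem pmin (hf : Primrec f) (hg : Primrec g) : Primrec fun a => min (f a) (g a) :=
  Primrec.nat_min.comp hf hg
theorem pdsq (hf : Primrec f) (hg : Primrec g) : Primrec fun a => dsq (f a) (g a) :=
  pmul (padd (psub hf hg) (psub hg hf)) (padd (psub hf hg) (psub hg hf))

end

theorem primrec_neg : Primrec neg :=
  pr2.pair (pr1.pair (pr4.pair (pr3.pair pr5)))

theorem primrec_nrm : Primrec nrm := padd (pdsq pr1 pr2) (pdsq pr3 pr4)

theorem primrec_inv : Primrec inv :=
  (pmul (pmul (psucc pr5) pr1) (pmin primrec_nrm (Primrec.const 1))).pair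
    ((pmul (pmul (psucc pr5) pr2) (pmin primrec_nrm (Primrec.const 1))).pair
      ((pmul (pmul (psucc pr5) pr4) (pmin primrec_nrm (Primrec.const 1))).pair
        ((pmul (pmul (psucc pr5) pr3) (pmin primrec_nrm (Primrec.const 1))).pair
          (psub primrec_nrm (Primrec.const 1)))))

section
variable {α : Type*} [Primcodable α]

theorem primrec_add : Primrec₂ add := by
  have a1 : Primrec fun p : T × T => p.1.1 := pr1.comp Primrec.fst
  have a2 : Primrec fun p : T × T => p.1.2.1 := pr2.comp Primrec.fst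
  have a3 : Primrec fun p : T × T => p.1.2.2.1 := pr3.comp Primrec.fst
  have a4 : Primrec fun p : T × T => p.1.2.2.2.1 := pr4.comp Primrec.fst
  have a5 : Primrec fun p : T × T => p.1.2.2.2.2 := pr5.comp Primrec.fst
  have b1 : Primrec fun p : T × T => p.2.1 := pr1.comp Primrec.snd
  have b2 : Primrec fun p : T × T => p.2.2.1 := pr2.comp Primrec.snd
  have b3 : Primrec fun p : T × T => p.2.2.2.1 := pr3.comp Primrec.snd
  have b4 : Primrec fun p : T × T => p.2.2.2.2.1 := pr4.comp Primrec.snd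
  have b5 : Primrec fun p : T × T => p.2.2.2.2.2 := pr5.comp Primrec.snd
  exact (padd (pmul a1 (psucc b5)) (pmul b1 (psucc a5))).pair
    ((padd (pmul a2 (psucc b5)) (pmul b2 (psucc a5))).pair
      ((padd (pmul a3 (psucc b5)) (pmul b3 (psucc a5))).pair
        ((padd (pmul a4 (psucc b5)) (pmul b4 (psucc a5))).pair
          (padd (padd (pmul a5 b5) a5) b5))))

theorem primrec_mul : Primrec₂ mul := by
  have a1 : Primrec fun p : T × T => p.1.1 := pr1.comp Primrec.fst
  have a2 : Primrec fun p : T × T => p.1.2.1 := pr2.comp Primrec.fst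
  have a3 : Primrec fun p : T × T => p.1.2.2.1 := pr3.comp Primrec.fst
  have a4 : Primrec fun p : T × T => p.1.2.2.2.1 := pr4.comp Primrec.fst
  have a5 : Primrec fun p : T × T => p.1.2.2.2.2 := pr5.comp Primrec.fst
  have b1 : Primrec fun p : T × T => p.2.1 := pr1.comp Primrec.snd
  have b2 : Primrec fun p : T × T => p.2.2.1 := pr2.comp Primrec.snd
  have b3 : Primrec fun p : T × T => p.2.2.2.1 := pr3.comp Primrec.snd
  have b4 : Primrec fun p : T × T => p.2.2.2.2.1 := pr4.comp Primrec.snd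
  have b5 : Primrec fun p : T × T => p.2.2.2.2.2 := pr5.comp Primrec.snd
  exact (padd (padd (padd (pmul a1 b1) (pmul a2 b2)) (pmul a3 b4)) (pmul a4 b3)).pair
    ((padd (padd (padd (pmul a1 b2) (pmul a2 b1)) (pmul a3 b3)) (pmul a4 b4)).pair
      ((padd (padd (padd (pmul a1 b3) (pmul a2 b4)) (pmul a3 b1)) (pmul a4 b2)).pair
        ((padd (padd (padd (pmul a1 b4) (pmul a2 b3)) (pmul a3 b2)) (pmul a4 b1)).pair
          (padd (padd (pmul a5 b5) a5) b5))))

theorem primrec_ofNat : Primrec ofNat :=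
  Primrec.id.pair ((Primrec.const 0).pair ((Primrec.const 0).pair
    ((Primrec.const 0).pair (Primrec.const 0))))

end

/-! ### Density -/

/-- every complex number is close to the value of a code -/
theorem exists_val_near (z : ℂ) {ε : ℝ} (hε : 0 < ε) : ∃ x : T, ‖val x - z‖ < ε := by
  obtain ⟨n, hn⟩ := exists_nat_gt (2 / ε)
  have hn0 : (0 : ℝ) < n + 1 := by positivity
  -- integer parts
  have key : ∀ u : ℝ, ∃ p q : ℕ, |((p : ℝ) - q) / (n + 1) - u| ≤ 1 / (n + 1) := by
    intro u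
    let k : ℤ := ⌊u * (n + 1)⌋
    refine ⟨k.toNat, (-k).toNat, ?_⟩
    have h1 : ((k.toNat : ℝ) - ((-k).toNat : ℝ)) = k := by
      have := Int.toNat_sub_toNat_neg k
      exact_mod_cast this
    rw [h1]
    have h2 := Int.floor_le (u * (n + 1))
    have h3 := Int.lt_floor_add_one (u * (n + 1))
    have h4 : (k : ℝ) / (n + 1) - u = ((k : ℝ) - u * (n + 1)) / (n + 1) := by
      field_simp
    rw [h4, abs_div, abs_of_pos hn0]
    apply div_le_div_of_nonneg_right _ hn0.le
    rw [abs_le]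
    constructor <;> linarith
  obtain ⟨p, q, h1⟩ := key z.re
  obtain ⟨r, s, h2⟩ := key z.im
  refine ⟨(p, q, r, s, n), ?_⟩
  have e : val (p, q, r, s, n) - z = (((((p : ℝ) - q) / (n + 1) - z.re : ℝ)) : ℂ) +
      (((((r : ℝ) - s) / (n + 1) - z.im : ℝ)) : ℂ) * Complex.I := by
    have hz : z = (z.re : ℂ) + (z.im : ℂ) * Complex.I := (Complex.re_add_im z).symm
    conv_lhs => rw [hz]
    simp only [val]
    push_cast
    ring
  rw [e]
  refine (norm_add_le _ _).trans_lt ?_
  rw [norm_mul, Complex.norm_I, mul_one, Complex.norm_real, Complex.norm_real, Real.norm_eq_abs,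
    Real.norm_eq_abs]
  refine (add_le_add h1 h2).trans_lt ?_
  have h5 : (2 : ℝ) / ε < n + 1 := hn.trans (lt_add_one _)
  rw [div_lt_iff₀ hε] at h5
  rw [← add_div, div_lt_iff₀ hn0]
  linarith

/-- a quotient of a Gaussian integer by a positive integer has a code -/
theorem exists_val_vec {ι : Type} [Fintype ι] (z : ι → ℂ) {ε : ℝ} (hε : 0 < ε) :
    ∃ x : Vec ι T, ‖vv x - z‖ < ε := by
  choose x hx using fun k => exists_val_near (z k) hε
  refine ⟨x, ?_⟩
  rw [pi_norm_lt_iff hε]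
  exact fun k => hx k

end T

end Pool.Agent.EllPR
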