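import Pool.Agent.EllSch.Fix.Essential

/-! # The formulas for combinations of points over a closed field -/

open Filter Topology Polynomial

namespace Pool.Agent.EllPR

open Pool.Agent.EllSch


/-- a polynomial which takes values in `E` at infinitely many points of `E` has coefficients
in `E` -/
theorem coeff_mem_of_eval {E : Subfield ℂ} (N : ℂ[X]) {S : Set ℂ} (hS : S.Infinite)
    (hSE : ∀ x ∈ S, x ∈ E ∧ N.eval x ∈ E) (i : ℕ) : N.coeff i ∈ E := by
  classical
  obtain ⟨t, htS, htc⟩ := hS.exists_subset_card_eq (N.natDegree + 1)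
  have hts : ∀ x ∈ t, x ∈ S := fun x hx => htS hx
  let v : t → E := fun x => ⟨x, (hSE x (hts x x.2)).1⟩
  let r : t → E := fun x => ⟨N.eval (x : ℂ), (hSE x (hts x x.2)).2⟩
  have hv : Set.InjOn v (Finset.univ : Finset t) := by
    intro x _ y _ hxy
    exact Subtype.ext (congrArg (Subtype.val : E → ℂ) hxy)
  let P : E[X] := Lagrange.interpolate Finset.univ v r
  have hP : N = P.map (algebraMap E ℂ) := by
    have hinj : Set.InjOn (fun x : t => (x : ℂ)) ((Finset.univ : Finset t) : Set t) :=
      Subtype.val_injective.injOn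
    apply Polynomial.eq_of_degrees_lt_of_eval_index_eq (ι := t) Finset.univ hinj
    · rw [Finset.card_univ, Fintype.card_coe, htc]
      exact Polynomial.degree_le_natDegree.trans_lt (by exact_mod_cast Nat.lt_succ_self _)
    · exact (Polynomial.degree_map_le).trans_lt (Lagrange.degree_interpolate_lt _ hv)
    · intro x hx
      have h1 := Lagrange.eval_interpolate_at_node r hv hx
      have h2 : Polynomial.eval (x : ℂ) (P.map (algebraMap E ℂ)) =
          algebraMap E ℂ (Polynomial.eval (v x) P) := by
        have := Polynomial.eval_map_apply (f := algebraMap E ℂ) (p := P) (v x)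
        exact this
      rw [h2, h1]
      rfl
  rw [hP, Polynomial.coeff_map]
  exact (P.coeff i).2

theorem eval_mem {E : Subfield ℂ} {Q : ℂ[X]} (hQ : ∀ i, Q.coeff i ∈ E) {x : ℂ} (hx : x ∈ E) :
    Q.eval x ∈ E := by
  rw [Polynomial.eval_eq_sum_range]
  exact sum_mem fun i _ => mul_mem (hQ i) (pow_mem hx i)

theorem infinite_vals {a b : ℂ} (h : Ind a b) {E : Subfield ℂ} (hlat : ∀ x, lat a b x ∈ E)
    {α : ℂ} (h0 : α ≠ 0) :
    {x : ℂ | ∃ z ∈ E, Off a b (α * z) ∧ wp a b z = x}.Infinite := by
  intro hfin
  obtain ⟨R, hR⟩ := hfin.isBounded.exists_norm_le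
  have ha : a ∈ E := by
    have := hlat (1, 0)
    simpa [lat] using this
  have ha0 : a ≠ 0 := by
    rintro rfl
    exact h (by simp)
  have ht : Tendsto (fun k : ℕ => a / ((k : ℂ) + 1)) atTop (𝓝[≠] 0) := by
    rw [tendsto_nhdsWithin_iff]
    constructor
    · have h1 := tendsto_one_div_add_atTop_nhds_zero_nat (𝕜 := ℂ)
      have h2 := h1.const_mul a
      rw [mul_zero] at h2
      refine h2.congr fun k => ?_
      rw [mul_one_div]
    · refine Filter.Eventually.of_forall fun k => ?_
      have h1 : ((k : ℂ) + 1) ≠ 0 := by exact_mod_cast Nat.succ_ne_zero k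
      exact div_ne_zero ha0 h1
  have h1 := (Basic.tendsto_norm_wp h).eventually_gt_atTop R
  obtain ⟨k, hk1, hk2⟩ := (ht.eventually (h1.and (CMul.eventually_off_mul h h0 0))).exists
  have hk : a / ((k : ℂ) + 1) ∈ E := div_mem ha (add_mem (natCast_mem E k) (one_mem E))
  exact absurd (hR _ ⟨_, hk, hk2, rfl⟩) (not_le.2 hk1)

/-- `℘ (α z)` is a rational function of `℘ z` -/
theorem cmul_E {a b : ℂ} (h : Ind a b) {E : Subfield ℂ} (hlat : ∀ x, lat a b x ∈ E)
    (hcl : ∀ z ∈ E, Off a b z → wp a b z ∈ E) {α : ℂ} (hα : α ∈ EndL a b) (hαE : α ∈ E)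
    (h0 : α ≠ 0) :
    ∃ N Q : ℂ[X], (∀ i, N.coeff i ∈ E) ∧ (∀ i, Q.coeff i ∈ E) ∧ ∀ z, Off a b (α * z) →
      Off a b z ∧ Q.eval (wp a b z) ≠ 0 ∧ wp a b (α * z) = N.eval (wp a b z) / Q.eval (wp a b z) := by
  classical
  set V : Finset ℂ := (CMul.finite_vals h hα h0).toFinset with hVdef
  have hV : ∀ s, Off a b s → ¬ Off a b (α * s) → wp a b s ∈ V := by
    intro s hs hs'
    rw [hVdef, Set.Finite.mem_toFinset]
    exact ⟨s, hs, hs', rfl⟩
  set Q : ℂ[X] := ∏ v ∈ V, (X - C v) ^ 2 with hQ
  set f : ℂ → ℂ := fun z => Q.eval (wp a b z) * wp a b (α * z) with hf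
  have fneg : ∀ z, f (-z) = f z := by
    intro z
    simp only [hf]
    rw [wp_neg h, mul_neg, wp_neg h]
  have fper : ∀ v z, f (z + lat a b v) = f z := by
    intro v z
    simp only [hf]
    rw [wp_add_lat h, CMul.wp_mul_add_lat h hα]
  set F : ℂ → ℂ := fun z => limUnder (𝓝[≠] z) f with hF
  have hlim : ∀ z, Off a b z → Tendsto f (𝓝[≠] z) (𝓝 (F z)) := by
    intro z hz
    exact tendsto_nhds_limUnder (CMul.exists_limit h h0 V hV hz)
  have hfd : ∀ z, Off a b (α * z) → DifferentiableAt ℂ f z := by
    intro z hz
    have hz' := CMul.off_of_off_mul hα hz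
    have d1 : DifferentiableAt ℂ (fun z => Q.eval (wp a b z)) z :=
      DifferentiableAt.comp z (Polynomial.differentiable Q).differentiableAt
        (Basic.differentiableAt_wp h hz')
    have d2 : DifferentiableAt ℂ (fun z => wp a b (α * z)) z :=
      DifferentiableAt.comp z (Basic.differentiableAt_wp h hz) (by fun_prop)
    exact d1.mul d2
  have hFf : ∀ z, Off a b (α * z) → F z = f z := by
    intro z hz
    exact tendsto_nhds_unique (hlim z (CMul.off_of_off_mul hα hz))
      ((hfd z hz).continuousAt.tendsto.mono_left nhdsWithin_le_nhds)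
  have hFev : ∀ s, F =ᶠ[𝓝[≠] s] f := fun s => by
    filter_upwards [CMul.eventually_off_mul h h0 s] with z hz using hFf z hz
  have hFd : ∀ z, Off a b z → DifferentiableAt ℂ F z := by
    intro z hz
    refine (Complex.analyticAt_of_differentiable_on_punctured_nhds_of_continuousAt ?_
      ?_).differentiableAt
    · filter_upwards [CMul.eventually_off_mul h h0 z] with u hu
      refine (hfd u hu).congr_of_eventuallyEq ?_
      have hopen : IsOpen {z : ℂ | Off a b (α * z)} :=
        (isOpen_off h).preimage (continuous_const.mul continuous_id)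
      filter_upwards [hopen.mem_nhds hu] with v hv using hFf v hv
    · rw [continuousAt_iff_punctured_nhds]
      exact (hlim z hz).congr' (hFev z).symm
  have hFneg : ∀ z, Off a b z → F (-z) = F z := by
    intro z hz
    have h1 := hlim (-z) (off_neg.2 hz)
    have h2 : Tendsto (fun u : ℂ => -u) (𝓝[≠] z) (𝓝[≠] (-z)) := by
      rw [tendsto_nhdsWithin_iff]
      constructor
      · exact (continuous_neg.tendsto z).mono_left nhdsWithin_le_nhds
      · filter_upwards [self_mem_nhdsWithin] with u hu
        exact fun he => hu (neg_injective he)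
    refine tendsto_nhds_unique ((h1.comp h2).congr' (Eventually.of_forall fun u => ?_)) (hlim z hz)
    simp only [Function.comp_apply]
    exact fneg u
  have hFper : ∀ v z, Off a b z → F (z + lat a b v) = F z := by
    intro v z hz
    have h1 := hlim (z + lat a b v) ((off_add_lat v).2 hz)
    have h2 : Tendsto (fun u : ℂ => u + lat a b v) (𝓝[≠] z) (𝓝[≠] (z + lat a b v)) := by
      rw [tendsto_nhdsWithin_iff]
      constructor
      · exact ((continuous_id.add continuous_const).tendsto z).mono_left nhdsWithin_le_nhds
      · filter_upwards [self_mem_nhdsWithin] with u hu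
        exact fun he => hu (add_right_cancel he)
    refine tendsto_nhds_unique ((h1.comp h2).congr' (Eventually.of_forall fun u => ?_)) (hlim z hz)
    simp only [Function.comp_apply]
    exact fper v u
  have hFm : MeromorphicAt F 0 := by
    have m1 : MeromorphicAt (fun z => wp a b (α * z)) 0 :=
      MeromorphicAt.comp_analyticAt (f := wp a b) (g := fun z => α * z)
        (EvenPoly.meromorphicAt_wp h _) (by fun_prop)
    have m2 : MeromorphicAt (fun z => Q.eval (wp a b z)) 0 := by
      have e : (fun z => Q.eval (wp a b z)) = fun z => ∏ v ∈ V, (wp a b z - v) ^ 2 := by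
        ext z
        rw [hQ, eval_prod]
        simp
      rw [e]
      have := EvenPoly.meromorphicAt_wp h 0
      fun_prop
    exact (m2.mul m1).congr (hFev 0).symm
  obtain ⟨N, hN⟩ := even_poly h hFd hFper hFneg hFm
  have hVE : ∀ v ∈ V, v ∈ E := by
    intro v hv
    rw [hVdef, Set.Finite.mem_toFinset] at hv
    obtain ⟨s, hs, hs', rfl⟩ := hv
    obtain ⟨y, hy⟩ := (Basic.not_off_iff a b _).1 hs'
    have h1 : s ∈ E := by
      have h2 : s = lat a b y / α := by rw [← hy]; field_simp
      rw [h2]
      exact div_mem (hlat y) hαE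
    exact hcl s h1 hs
  have hQE : ∀ i, Q.coeff i ∈ E := by
    have h1 : Q ∈ Polynomial.lifts (algebraMap E ℂ) := by
      rw [hQ]
      refine prod_mem fun v hv => pow_mem ?_ 2
      obtain ⟨w, hw⟩ : ∃ w : E, algebraMap E ℂ w = v := ⟨⟨v, hVE v hv⟩, rfl⟩
      rw [Polynomial.mem_lifts]
      refine ⟨X - C w, ?_⟩
      rw [Polynomial.map_sub, Polynomial.map_X, Polynomial.map_C, hw]
    intro i
    rw [Polynomial.lifts_iff_coeff_lifts] at h1
    obtain ⟨w, hw⟩ := h1 i
    rw [← hw]
    exact w.2
  have hNE : ∀ i, N.coeff i ∈ E := by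
    apply coeff_mem_of_eval N (infinite_vals h hlat h0)
    rintro _ ⟨z, hz, hoff, rfl⟩
    have hz' := CMul.off_of_off_mul hα hoff
    have h1 := hcl z hz hz'
    refine ⟨h1, ?_⟩
    rw [← hN z hz', hFf z hoff]
    exact mul_mem (eval_mem hQE h1) (hcl _ (mul_mem hαE hz) hoff)
  refine ⟨N, Q, hNE, hQE, fun z hz => ?_⟩
  have hz' := CMul.off_of_off_mul hα hz
  have hQz : Q.eval (wp a b z) ≠ 0 := by
    rw [hQ, eval_prod, Finset.prod_ne_zero_iff]
    intro v hv hv0
    rw [hVdef, Set.Finite.mem_toFinset] at hv
    obtain ⟨s, hs, hs', rfl⟩ := hv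
    have he : wp a b z = wp a b s := by
      have : wp a b z - wp a b s = 0 := by simpa using hv0
      exact sub_eq_zero.1 this
    obtain ⟨y, hy⟩ := (Basic.not_off_iff a b _).1 hs'
    rcases CMul.eq_or_neg h hz' hs he with ⟨x, hx⟩ | ⟨x, hx⟩
    · obtain ⟨w, hw⟩ := hα x
      refine hz (y + w) ?_
      rw [hx, mul_add, hy, hw, lat_add]
    · obtain ⟨w, hw⟩ := hα x
      refine hz (-y + w) ?_
      rw [hx, mul_add, mul_neg, hy, hw, lat_add, lat_neg]
  refine ⟨hz', hQz, ?_⟩
  rw [← hN z hz', hFf z hz, eq_div_iff hQz]
  simp only [hf]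
  ring


theorem comb_E {a b : ℂ} (h : Ind a b) {E : Subfield ℂ} (hlat : ∀ x, lat a b x ∈ E)
    (hend : (EndL a b : Set ℂ) ⊆ E) (hG2 : G2 a b ∈ E) (hG3 : G3 a b ∈ E)
    (hcl : ∀ z ∈ E, Off a b z → wp a b z ∈ E) : CombProp a b (E : Set ℂ) := by
  classical
  -- the polynomials
  have hex : ∀ α : EndL a b, ∃ N Q : Polynomial ℂ, (∀ i, N.coeff i ∈ E) ∧ (∀ i, Q.coeff i ∈ E) ∧
      ((α : ℂ) ≠ 0 → ∀ z, Off a b (α * z) →
      Off a b z ∧ Q.eval (wp a b z) ≠ 0 ∧
        wp a b (α * z) = N.eval (wp a b z) / Q.eval (wp a b z)) := by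
    intro α
    by_cases h0 : (α : ℂ) = 0
    · exact ⟨0, 0, fun i => by simp, fun i => by simp, fun h' => absurd h0 h'⟩
    · obtain ⟨N, Q, hN, hQ, hNQ⟩ := cmul_E h hlat hcl α.2 (hend α.2) h0
      exact ⟨N, Q, hN, hQ, fun _ => hNQ⟩
  choose N Q hSN hSQ hNQ using hex
  obtain ⟨S, hSdef⟩ : ∃ S : Set ℂ, S = (E : Set ℂ) := ⟨_, rfl⟩
  have hSE : (EndL a b : Set ℂ) ⊆ S := hSdef ▸ hend
  have hS2 : G2 a b ∈ S := hSdef ▸ hG2
  have hS3 : G3 a b ∈ S := hSdef ▸ hG3
  have hSN : ∀ (α : EndL a b) i, (N α).coeff i ∈ S := fun α i => hSdef ▸ hSN α i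
  have hSQ : ∀ (α : EndL a b) i, (Q α).coeff i ∈ S := fun α i => hSdef ▸ hSQ α i
  rw [← hSdef]
  refine ⟨hSE, hS2, hS3, ?_⟩
  intro K _ ι hι n z hz x y hx hy β' hβ' hβ0
  have hinj : Function.Injective ι := ι.injective
  have : CharZero K := by
    refine ⟨fun m n hmn => ?_⟩
    have := congrArg ι hmn
    simpa using this
  obtain ⟨g2, hg2⟩ := hι _ hS2
  obtain ⟨g3, hg3⟩ := hι _ hS3
  have hΔ : g2 ^ 3 - 27 * g3 ^ 2 ≠ 0 := by
    intro h0
    apply disc_ne_zero h
    rw [← hg2, ← hg3]
    have := congrArg ι h0
    simpa only [map_sub, map_mul, map_pow, map_ofNat, map_zero] using this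
  -- single points
  have hone : ∀ i, β' i ≠ 0 → ∃ X Y : K, ι X = wp a b (ι (β' i) * z i) ∧
      ι Y = wq a b (ι (β' i) * z i) ∧ ∀ D : Derivation ℤ K K, (∀ s, ι s ∈ S → D s = 0) →
      D X / Y = β' i * (D (x i) / y i) := by
    intro i hi
    set α : EndL a b := ⟨ι (β' i), hβ' i⟩ with hα
    have hα0 : (α : ℂ) ≠ 0 := by
      rw [hα]
      simpa using hi
    have hoffc : ∀ γ : ℂ, γ ∈ EndL a b → γ ≠ 0 → Off a b (γ * z i) := by
      intro γ hγ hγ0
      have := hz (Pi.single i γ) (fun j => by
        by_cases hj : j = i
        · subst hj; simpa using hγ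
        · rw [Pi.single_eq_of_ne hj]; exact (EndL a b).zero_mem) (by
          intro h0
          exact hγ0 (by simpa using congrFun h0 i))
      have e : ∑ j, (Pi.single i γ : Fin n → ℂ) j * z j = γ * z i := by
        rw [Finset.sum_eq_single i]
        · simp
        · intro j _ hj
          rw [Pi.single_eq_of_ne hj, zero_mul]
        · simp
      rw [e] at this
      exact this
    have hoff : Off a b (α * z i) := hoffc _ α.2 hα0
    obtain ⟨-, hQ0, hval⟩ := hNQ α hα0 (z i) hoff
    have hder := Comb.cmul_deriv h (hNQ α hα0) hoff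
    -- lift the polynomials
    obtain ⟨NK, hNK⟩ : ∃ p : Polynomial K, p.map ι = N α := by
      have : N α ∈ Polynomial.lifts ι := by
        rw [Polynomial.lifts_iff_coeff_lifts]
        intro j
        obtain ⟨k, hk⟩ := hι _ (hSN α j)
        exact ⟨k, hk⟩
      exact (Polynomial.mem_lifts _).1 this
    obtain ⟨QK, hQK⟩ : ∃ p : Polynomial K, p.map ι = Q α := by
      have : Q α ∈ Polynomial.lifts ι := by
        rw [Polynomial.lifts_iff_coeff_lifts]
        intro j
        obtain ⟨k, hk⟩ := hι _ (hSQ α j)
        exact ⟨k, hk⟩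
      exact (Polynomial.mem_lifts _).1 this
    have eN : ι (NK.eval (x i)) = (N α).eval (wp a b (z i)) := by
      rw [← hNK, Polynomial.eval_map, ← hx, Polynomial.eval₂_hom]
    have eQ : ι (QK.eval (x i)) = (Q α).eval (wp a b (z i)) := by
      rw [← hQK, Polynomial.eval_map, ← hx, Polynomial.eval₂_hom]
    have eN' : ι ((Polynomial.derivative NK).eval (x i)) =
        (Polynomial.derivative (N α)).eval (wp a b (z i)) := by
      rw [← hNK, Polynomial.derivative_map, Polynomial.eval_map, ← hx, Polynomial.eval₂_hom]
    have eQ' : ι ((Polynomial.derivative QK).eval (x i)) =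
        (Polynomial.derivative (Q α)).eval (wp a b (z i)) := by
      rw [← hQK, Polynomial.derivative_map, Polynomial.eval_map, ← hx, Polynomial.eval₂_hom]
    have hQK0 : QK.eval (x i) ≠ 0 := by
      intro h0
      apply hQ0
      rw [← eQ, h0, map_zero]
    set W : K := (Polynomial.derivative NK).eval (x i) * QK.eval (x i) -
      NK.eval (x i) * (Polynomial.derivative QK).eval (x i) with hW
    have hιW : ι W = (Polynomial.derivative (N α)).eval (wp a b (z i)) *
        (Q α).eval (wp a b (z i)) - (N α).eval (wp a b (z i)) *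
        (Polynomial.derivative (Q α)).eval (wp a b (z i)) := by
      rw [hW, map_sub, map_mul, map_mul, eN, eQ, eN', eQ']
    have hYval : ι (W * y i / (QK.eval (x i) ^ 2 * β' i)) = wq a b (ι (β' i) * z i) := by
      rw [map_div₀, map_mul, map_mul, map_pow, hιW, hy, eQ, div_eq_iff
        (mul_ne_zero (pow_ne_zero 2 hQ0) hα0)]
      have h1 : wq a b (ι (β' i) * z i) * ι (β' i) * (Q α).eval (wp a b (z i)) ^ 2 =
        ((Polynomial.derivative (N α)).eval (wp a b (z i)) * (Q α).eval (wp a b (z i)) -
          (N α).eval (wp a b (z i)) * (Polynomial.derivative (Q α)).eval (wp a b (z i))) *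
          wq a b (z i) := (eq_div_iff (pow_ne_zero 2 hQ0)).1 hder
      linear_combination -h1
    refine ⟨NK.eval (x i) / QK.eval (x i), W * y i / (QK.eval (x i) ^ 2 * β' i), ?_, hYval, ?_⟩
    · rw [map_div₀, eN, eQ]
      exact hval.symm
    · intro D hD
      have hy0 : ι (W * y i / (QK.eval (x i) ^ 2 * β' i)) ≠ 0 := by
        rw [hYval]
        apply wq_ne_zero h
        have := hoffc (2 * ι (β' i)) ((EndL a b).mul_mem (ofNat_mem _ 2) (hβ' i))
          (mul_ne_zero two_ne_zero hα0)
        rwa [mul_assoc] at this
      have hWy : W * y i ≠ 0 := by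
        intro h0
        apply hy0
        rw [h0, zero_div, map_zero]
      have hW0 : W ≠ 0 := left_ne_zero_of_mul hWy
      have hyi : y i ≠ 0 := right_ne_zero_of_mul hWy
      have hDN : D (NK.eval (x i)) = (Polynomial.derivative NK).eval (x i) * D (x i) := by
        apply Comb.der_eval
        intro j
        apply hD
        rw [← Polynomial.coeff_map, hNK]
        exact hSN α j
      have hDQ : D (QK.eval (x i)) = (Polynomial.derivative QK).eval (x i) * D (x i) := by
        apply Comb.der_eval
        intro j
        apply hD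
        rw [← Polynomial.coeff_map, hQK]
        exact hSQ α j
      have hDX : D (NK.eval (x i) / QK.eval (x i)) = W * D (x i) / QK.eval (x i) ^ 2 := by
        rw [D.leibniz_div, hDN, hDQ, hW]
        simp only [smul_eq_mul]
        field_simp
      rw [hDX]
      field_simp
  -- sums
  have hsum : ∀ s : Finset (Fin n), (∀ i ∈ s, β' i = 0) ∨ ∃ X Y : K,
      ι X = wp a b (∑ i ∈ s, ι (β' i) * z i) ∧ ι Y = wq a b (∑ i ∈ s, ι (β' i) * z i) ∧
      ∀ D : Derivation ℤ K K, (∀ s, ι s ∈ S → D s = 0) →
      D X / Y = ∑ i ∈ s, β' i * (D (x i) / y i) := by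
    intro s
    induction s using Finset.induction_on with
    | empty => left; simp
    | insert i s his ih =>
      by_cases hi : β' i = 0
      · rcases ih with h1 | ⟨X, Y, hX, hY, hD⟩
        · left
          intro j hj
          rcases Finset.mem_insert.1 hj with h2 | h2
          · rw [h2]; exact hi
          · exact h1 j h2
        · right
          refine ⟨X, Y, ?_, ?_, ?_⟩
          · rw [Finset.sum_insert his, hi, map_zero, zero_mul, zero_add]; exact hX
          · rw [Finset.sum_insert his, hi, map_zero, zero_mul, zero_add]; exact hY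
          · intro D hD'
            rw [Finset.sum_insert his, hi, zero_mul, zero_add]
            exact hD D hD'
      · right
        obtain ⟨X1, Y1, hX1, hY1, hD1⟩ := hone i hi
        rcases ih with h1 | ⟨X2, Y2, hX2, hY2, hD2⟩
        · refine ⟨X1, Y1, ?_, ?_, ?_⟩
          · rw [Finset.sum_insert his, Finset.sum_eq_zero, add_zero]
            · exact hX1
            · intro j hj; rw [h1 j hj, map_zero, zero_mul]
          · rw [Finset.sum_insert his, Finset.sum_eq_zero, add_zero]
            · exact hY1
            · intro j hj; rw [h1 j hj, map_zero, zero_mul]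
          · intro D hD'
            rw [Finset.sum_insert his, Finset.sum_eq_zero (s := s), add_zero]
            · exact hD1 D hD'
            · intro j hj; rw [h1 j hj, zero_mul]
        · by_cases hall : ∀ j ∈ s, β' j = 0
          · refine ⟨X1, Y1, ?_, ?_, ?_⟩
            · rw [Finset.sum_insert his, Finset.sum_eq_zero, add_zero]
              · exact hX1
              · intro j hj; rw [hall j hj, map_zero, zero_mul]
            · rw [Finset.sum_insert his, Finset.sum_eq_zero, add_zero]
              · exact hY1
              · intro j hj; rw [hall j hj, map_zero, zero_mul]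
            · intro D hD'
              rw [Finset.sum_insert his, Finset.sum_eq_zero (s := s), add_zero]
              · exact hD1 D hD'
              · intro j hj; rw [hall j hj, zero_mul]
          push Not at hall
          obtain ⟨j₀, hj₀, hj₀0⟩ := hall
          set u : ℂ := ι (β' i) * z i with hu
          set v : ℂ := ∑ j ∈ s, ι (β' j) * z j with hv
          -- general combination
          have hcomb : ∀ γ δ : ℂ, γ ∈ EndL a b → δ ∈ EndL a b → (γ ≠ 0 ∨ δ ≠ 0) →
              Off a b (γ * u + δ * v) := by
            intro γ δ hγ hδ hne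
            have := hz (fun j => if j = i then γ * ι (β' i) else if j ∈ s then δ * ι (β' j) else 0)
              (fun j => by
                split_ifs
                · exact (EndL a b).mul_mem hγ (hβ' i)
                · exact (EndL a b).mul_mem hδ (hβ' j)
                · exact (EndL a b).zero_mem)
              (by
                intro h0
                rcases hne with hne | hne
                · have h2 := congrFun h0 i
                  simp only [if_true, Pi.zero_apply, mul_eq_zero] at h2
                  rcases h2 with h2 | h2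
                  · exact hne h2
                  · exact hi ((map_eq_zero ι).1 h2)
                · have h2 := congrFun h0 j₀
                  have hji : j₀ ≠ i := fun he => his (he ▸ hj₀)
                  simp only [hji, if_false, hj₀, if_true, Pi.zero_apply, mul_eq_zero] at h2
                  rcases h2 with h2 | h2
                  · exact hne h2
                  · exact hj₀0 ((map_eq_zero ι).1 h2))
            have e : ∑ j, (if j = i then γ * ι (β' i) else if j ∈ s then δ * ι (β' j) else 0) * z j
                = γ * u + δ * v := by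
              have e1 : ∀ j, (if j = i then γ * ι (β' i) else if j ∈ s then δ * ι (β' j) else 0) *
                  z j = (if j = i then γ * ι (β' i) * z i else 0) +
                    (if j ∈ s then δ * (ι (β' j) * z j) else 0) := by
                intro j
                by_cases hj : j = i
                · subst hj
                  simp [his]
                · by_cases hjs : j ∈ s
                  · simp [hj, hjs, mul_assoc]
                  · simp [hj, hjs]
              rw [Finset.sum_congr rfl (fun j _ => e1 j), Finset.sum_add_distrib,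
                Finset.sum_ite_eq' Finset.univ i, if_pos (Finset.mem_univ i), hu, hv,
                Finset.mul_sum, ← Finset.sum_filter, Finset.filter_mem_eq_inter,
                Finset.univ_inter, mul_assoc]
            rw [e] at this
            exact this
          have hE1 : (1 : ℂ) ∈ EndL a b := (EndL a b).one_mem
          have hE0 : (0 : ℂ) ∈ EndL a b := (EndL a b).zero_mem
          have hEm1 : (-1 : ℂ) ∈ EndL a b := (EndL a b).neg_mem hE1
          have ou : Off a b u := by
            have := hcomb 1 0 hE1 hE0 (Or.inl one_ne_zero)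
            simpa using this
          have ov : Off a b v := by
            have := hcomb 0 1 hE0 hE1 (Or.inr one_ne_zero)
            simpa using this
          have ouv : Off a b (u + v) := by
            have := hcomb 1 1 hE1 hE1 (Or.inl one_ne_zero)
            simpa using this
          have ouv' : Off a b (u - v) := by
            have := hcomb 1 (-1) hE1 hEm1 (Or.inl one_ne_zero)
            simpa [sub_eq_add_neg] using this
          have hne : wp a b u ≠ wp a b v := by
            intro he
            rcases CMul.eq_or_neg h ou ov he with ⟨w, hw⟩ | ⟨w, hw⟩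
            · exact ouv' w (by rw [hw]; ring)
            · exact ouv w (by rw [hw]; ring)
          have hneK : X1 ≠ X2 := by
            intro he
            apply hne
            rw [← hX1, ← hX2, he]
          have hneK' : X1 - X2 ≠ 0 := sub_ne_zero.2 hneK
          set l : K := (Y1 - Y2) / (X1 - X2) with hl
          set X3 : K := l ^ 2 / 4 - X1 - X2 with hX3
          set Y3 : K := -(Y1 + l * (X3 - X1)) with hY3
          have hιl : ι l = (wq a b u - wq a b v) / (wp a b u - wp a b v) := by
            rw [hl, map_div₀, map_sub, map_sub, hX1, hX2, hY1, hY2]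
          have hιX3 : ι X3 = wp a b (u + v) := by
            rw [wp_add h ou ov ouv hne, hX3, map_sub, map_sub, map_div₀, map_pow, hιl, hX1, hX2,
              map_ofNat]
          have hιY3 : ι Y3 = wq a b (u + v) := by
            rw [wq_add h ou ov ouv hne, hY3, map_neg, map_add, map_mul, map_sub, hιl, hX1, hY1,
              hιX3]
          -- the curve
          have c1 : Y1 ^ 2 = 4 * X1 ^ 3 - g2 * X1 - g3 := by
            apply hinj
            simp only [map_sub, map_mul, map_pow, map_ofNat]
            rw [hX1, hY1, hg2, hg3]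
            exact ode h ou
          have c2 : Y2 ^ 2 = 4 * X2 ^ 3 - g2 * X2 - g3 := by
            apply hinj
            simp only [map_sub, map_mul, map_pow, map_ofNat]
            rw [hX2, hY2, hg2, hg3]
            exact ode h ov
          have c3 : Y3 ^ 2 = 4 * X3 ^ 3 - g2 * X3 - g3 := by
            apply hinj
            simp only [map_sub, map_mul, map_pow, map_ofNat]
            rw [hιX3, hιY3, hg2, hg3]
            exact ode h ouv
          refine ⟨X3, Y3, ?_, ?_, ?_⟩
          · rw [Finset.sum_insert his]; exact hιX3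
          · rw [Finset.sum_insert his]; exact hιY3
          · intro D hD
            have hp := Hom.pt_add_of_ne (y3 := Y3) hΔ c1 c2 c3 hneK hX3 hY3
            have h4 := om_add D (hD g2 (by rw [hg2]; exact hS2)) (hD g3 (by rw [hg3]; exact hS3))
              hΔ (pt g2 g3 X1 Y1) (pt g2 g3 X2 Y2)
            rw [← hp, om_pt D hΔ c1, om_pt D hΔ c2, om_pt D hΔ c3] at h4
            rw [h4, Finset.sum_insert his, hD1 D hD, hD2 D hD]
  rcases hsum Finset.univ with h1 | h1
  · exact absurd (funext fun i => h1 i (Finset.mem_univ i)) hβ0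
  · exact h1


end Pool.Agent.EllPR
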