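import Pool.Agent.EllSch.Transfer
import Pool.Agent.EllPR.Newton

/-!
# The transfer lemma with a primitive recursive exceptional set
-/

open Filter Topology

namespace Pool.Agent.EllSch.Transfer

section main

variable {ι : Type} [Fintype ι] [DecidableEq ι] {R : Type} [CommRing R]

theorem local_const' [IsNoetherianRing R] (k0 : ι) (ev : (ι → ℂ) → R →+* ℂ) (U : Set (ι → ℂ)) (hU : IsOpen U)
    (d : ι → Derivation ℤ R R) (κ : (ι → ℂ) → ℂ) (hκ : ∀ a ∈ U, κ a ≠ 0)
    (X : ι → R) (hX : ∀ a ∈ U, ∀ k, ev a (X k) = a k)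
    (hd : ∀ a ∈ U, ∀ T : R, ∃ L : (ι → ℂ) →L[ℂ] ℂ, HasStrictFDerivAt (fun v => ev v T) L a ∧
      ∀ k, κ a * L (Pi.single k 1) = ev a (d k T))
    (τ : (ι → ℂ) → ℂ) (T : ι → R) (u : (ι → ℂ) → ℂ)
    (hτ : ∀ a ∈ U, ∃ L : (ι → ℂ) →L[ℂ] ℂ, HasStrictFDerivAt τ L a ∧
      ∀ k, L (Pi.single k 1) = u a * ev a (T k))
    (I : Ideal R) (a : ι → ℂ) (ha : a ∈ U) (hI : ∀ x, x ∈ I ↔ ev a x = 0)
    (hbad : ¬ ∃ q : ι → R, (∀ h : R, ev a h = 0 → ev a (∑ k, q k * d k h) = 0) ∧
      ev a (∑ k, q k * T k) ≠ 0) :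
    ∃ (r : ℕ) (h : Fin r → R) (c : Fin r → ι) (D : R), Function.Injective c ∧
      (∀ i, ev a (h i) = 0) ∧ ev a D ≠ 0 ∧ (∀ v ∈ U, ev v D ≠ 0 → ∃ e : (ι → ℂ) ≃L[ℂ] (ι → ℂ),
        HasStrictFDerivAt (Ph ev h c) (e : (ι → ℂ) →L[ℂ] (ι → ℂ)) v) ∧
      ∃ V ∈ 𝓝 a, ∀ b ∈ V, b ∈ U → (∀ i, ev b (h i) = 0) → τ b = τ a := by
  classical
  -- the gradients
  set g : R → ι → ℂ := fun h k => ev a (d k h) with hg
  obtain ⟨r, f, hf1, hf2, hf3⟩ : ∃ (r : ℕ) (f : Fin r → ι → ℂ), (∀ i, f i ∈ g '' (I : Set R)) ∧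
      Submodule.span ℂ (Set.range f) = Submodule.span ℂ (g '' (I : Set R)) ∧
      LinearIndependent ℂ f := ⟨_, Submodule.exists_fun_fin_finrank_span_eq ℂ (g '' (I : Set R))⟩
  choose h hhI hhf using hf1
  obtain ⟨c, hc⟩ := exists_cols f hf3
  have hcinj : Function.Injective c := by
    intro i j hij
    by_contra hne
    apply hc
    apply Matrix.det_zero_of_column_eq hne
    intro k
    simp only [Matrix.of_apply, hij]
  set A : Matrix (Fin r) ι R := Matrix.of fun i k => d k (h i) with hA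
  have hAmap : ∀ i k, (A.map (ev a)) i k = f i k := by
    intro i k
    rw [← hhf i]
    rfl
  set D : R := (A.submatrix id c).det with hD
  have hDa : ev a D ≠ 0 := by
    rw [hD, RingHom.map_det]
    convert! hc using 2
    ext i j
    exact hAmap i (c j)
  -- step A
  have hstepA : ∀ x ∈ I, ∀ k, Ek A c (fun k => d k x) k ∈ I := by
    intro x hx k
    rw [hI, map_Ek]
    have h1 : g x ∈ Submodule.span ℂ (Set.range f) := by
      rw [hf2]
      exact Submodule.subset_span ⟨x, hx, rfl⟩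
    rw [Submodule.mem_span_range_iff_exists_fun] at h1
    obtain ⟨l, hl⟩ := h1
    apply Ek_span _ _ _ l
    intro k
    have h2 := congrFun hl k
    rw [Finset.sum_apply] at h2
    change ev a (d k x) = _
    have h3 : ev a (d k x) = g x k := rfl
    rw [h3, ← h2]
    apply Finset.sum_congr rfl
    intro i _
    rw [Pi.smul_apply, smul_eq_mul, hAmap]
  -- step B
  have hstepB : ∀ k, Ek A c T k ∈ I := by
    intro k
    by_contra hcon
    apply hbad
    refine ⟨qv A c k, ?_, ?_⟩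
    · intro x hx
      have h1 := sum_qv A c (fun k => d k x) k
      rw [h1, ← hI]
      exact hstepA x ((hI x).2 hx) k
    · rw [sum_qv]
      rw [hI] at hcon
      exact hcon
  -- generators
  obtain ⟨n, F, hF⟩ := Submodule.fg_iff_exists_fin_generating_family.1
    (IsNoetherian.noetherian I)
  have hFI : ∀ j, F j ∈ I := by
    intro j
    rw [← hF]
    exact Submodule.subset_span ⟨j, rfl⟩
  have hco : ∀ (j : Fin n) (k : ι), ∃ co : Fin n → R,
      ∑ l, co l * F l = Ek A c (fun k => d k (F j)) k := by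
    intro j k
    have h1 := hstepA (F j) (hFI j) k
    rw [← hF, Submodule.mem_span_range_iff_exists_fun] at h1
    exact h1
  choose co hco using hco
  -- κ is a value of the ring
  have hκX : ∀ v ∈ U, κ v = ev v (d k0 (X k0)) := by
    intro v hv
    obtain ⟨L, hL, hLk⟩ := hd v hv (X k0)
    have h1 : HasFDerivAt (fun v : ι → ℂ => v k0)
        (ContinuousLinearMap.proj (R := ℂ) (φ := fun _ : ι => ℂ) k0) v :=
      (ContinuousLinearMap.proj (R := ℂ) (φ := fun _ : ι => ℂ) k0).hasFDerivAt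
    have h2 : (fun v : ι → ℂ => v k0) =ᶠ[𝓝 v] fun v => ev v (X k0) := by
      filter_upwards [hU.mem_nhds hv] with w hw
      exact (hX w hw k0).symm
    have h3 := (h2.hasFDerivAt_iff.1 h1).unique hL.hasFDerivAt
    rw [← hLk, ← h3]
    simp
  have hcont : ∀ v ∈ U, ∀ x : R, ContinuousAt (fun v => ev v x) v := by
    intro v hv x
    obtain ⟨L, hL, _⟩ := hd v hv x
    exact hL.hasFDerivAt.continuousAt
  have hκa : ev a (d k0 (X k0)) ≠ 0 := by
    rw [← hκX a ha]
    exact hκ a ha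
  set δ : ℝ := ‖ev a D‖ / 2 with hδ
  set δ' : ℝ := ‖ev a (d k0 (X k0))‖ / 2 with hδ'
  have hδ0 : 0 < δ := by have := norm_pos_iff.2 hDa; positivity
  have hδ'0 : 0 < δ' := by have := norm_pos_iff.2 hκa; positivity
  set N0 : Set (ι → ℂ) := {v | v ∈ U ∧ δ < ‖ev v D‖ ∧ δ' < ‖ev v (d k0 (X k0))‖ ∧
    ∀ j k l, ‖ev v (co j k l)‖ < ‖ev a (co j k l)‖ + 1} with hN0
  have hN0a : N0 ∈ 𝓝 a := by
    have h1 : ∀ᶠ v in 𝓝 a, δ < ‖ev v D‖ :=
      (hcont a ha D).norm.eventually_const_lt (by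
        have := norm_pos_iff.2 hDa
        rw [hδ]; linarith)
    have h2 : ∀ᶠ v in 𝓝 a, δ' < ‖ev v (d k0 (X k0))‖ :=
      (hcont a ha _).norm.eventually_const_lt (by
        have := norm_pos_iff.2 hκa
        rw [hδ']; linarith)
    have h3 : ∀ᶠ v in 𝓝 a, ∀ j k l, ‖ev v (co j k l)‖ < ‖ev a (co j k l)‖ + 1 := by
      rw [Filter.eventually_all]
      intro j
      rw [Filter.eventually_all]
      intro k
      rw [Filter.eventually_all]
      intro l
      exact (hcont a ha _).norm.eventually_lt_const (lt_add_one _)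
    filter_upwards [hU.mem_nhds ha, h1, h2, h3] with v h4 h5 h6 h7
    exact ⟨h4, h5, h6, h7⟩
  -- the derivative of the chart
  have hchart : ∀ v ∈ U, ev v D ≠ 0 → ∃ e : (ι → ℂ) ≃L[ℂ] (ι → ℂ),
      HasStrictFDerivAt (Ph ev h c) (e : (ι → ℂ) →L[ℂ] (ι → ℂ)) v := by
    intro v hv hDv
    choose L hL hLk using fun j => hd v hv (h j)
    have hdet : (Matrix.of fun i j => L i (Pi.single (c j) 1)).det ≠ 0 := by
      have h1 : (κ v) • (Matrix.of fun i j => L i (Pi.single (c j) 1)) =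
          (ev v).mapMatrix (A.submatrix id c) := by
        ext i j
        simp only [Matrix.smul_apply, Matrix.of_apply, smul_eq_mul, hLk]
        rfl
      have h2 : ((κ v) • (Matrix.of fun i j => L i (Pi.single (c j) 1)) :
          Matrix (Fin r) (Fin r) ℂ).det = ev v D := by
        rw [h1, hD, RingHom.map_det]
      intro h3
      rw [Matrix.det_smul, h3, mul_zero] at h2
      exact hDv h2.symm
    obtain ⟨e, he⟩ := exists_equiv c hcinj L hdet
    refine ⟨e, ?_⟩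
    rw [he]
    exact Ph_deriv ev h c v L hL
  refine ⟨r, h, c, D, hcinj, fun i => (hI _).1 (hhI i), hDa, hchart, ?_⟩
  obtain ⟨ea, hea⟩ := hchart a ha hDa
  set e := hea.toOpenPartialHomeomorph (Ph ev h c) with he
  have hecoe : (e : (ι → ℂ) → ι → ℂ) = Ph ev h c := hea.toOpenPartialHomeomorph_coe
  have hea_src : a ∈ e.source := hea.mem_toOpenPartialHomeomorph_source
  have hea_tgt : Ph ev h c a ∈ e.target := hea.image_mem_toOpenPartialHomeomorph_target
  have hsymm_a : e.symm (Ph ev h c a) = a := by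
    have := e.left_inv hea_src
    rw [hecoe] at this
    exact this
  have hsymm_strict : HasStrictFDerivAt e.symm (ea.symm : (ι → ℂ) →L[ℂ] (ι → ℂ)) (Ph ev h c a) := by
    apply e.hasStrictFDerivAt_symm hea_tgt
    rw [hsymm_a, hecoe]
    exact hea
  obtain ⟨C, S, hS, hlip⟩ := hsymm_strict.exists_lipschitzOnWith
  have hpre : ∀ᶠ w in 𝓝 (Ph ev h c a), e.symm w ∈ N0 := by
    have h1 := hsymm_strict.hasFDerivAt.continuousAt
    apply h1.eventually_mem
    rw [hsymm_a]
    exact hN0a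
  obtain ⟨ρ, hρ0, hρ⟩ := Metric.mem_nhds_iff.1
    (Filter.inter_mem (Filter.inter_mem hS hpre) (e.open_target.mem_nhds hea_tgt))
  refine ⟨e.source ∩ Ph ev h c ⁻¹' (Metric.ball (Ph ev h c a) ρ), ?_, ?_⟩
  · apply Filter.inter_mem (e.open_source.mem_nhds hea_src)
    exact hea.hasFDerivAt.continuousAt.preimage_mem_nhds (Metric.ball_mem_nhds _ hρ0)
  rintro b ⟨hbs, hbb⟩ hbU hbI
  -- the curve
  set w0 := Ph ev h c a with hw0
  set w1 := Ph ev h c b with hw1
  set w : ℝ → ι → ℂ := fun s => w0 + s • (w1 - w0) with hw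
  set γ : ℝ → ι → ℂ := fun s => e.symm (w s) with hγ
  have hball : ∀ s ∈ Set.Icc (0 : ℝ) 1, w s ∈ Metric.ball w0 ρ := by
    intro s hs
    have hconv := convex_ball w0 ρ
    have h1 := hconv.add_smul_sub_mem (Metric.mem_ball_self hρ0) hbb hs
    exact h1
  have hwd : ∀ s, HasDerivAt w (w1 - w0) s := by
    intro s
    have h1 : HasDerivAt (fun s : ℝ => s • (w1 - w0)) ((1 : ℝ) • (w1 - w0)) s :=
      (hasDerivAt_id s).smul_const _
    rw [one_smul] at h1
    exact h1.const_add w0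
  have hγ0 : γ 0 = a := by
    rw [hγ, hw]
    simp only [zero_smul, add_zero]
    exact hsymm_a
  have hγ1 : γ 1 = b := by
    rw [hγ, hw]
    simp only [one_smul, add_sub_cancel]
    have := e.left_inv hbs
    rw [hecoe] at this
    exact this
  have hγN : ∀ s ∈ Set.Icc (0 : ℝ) 1, γ s ∈ N0 := fun s hs => (hρ (hball s hs)).1.2
  -- derivative of the curve
  have hγd : ∀ s ∈ Set.Icc (0 : ℝ) 1, ∃ γ' : ι → ℂ, HasDerivAt γ γ' s ∧
      ‖γ'‖ ≤ C * ‖w1 - w0‖ := by
    intro s hs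
    have hN := hγN s hs
    have hDne : ev (γ s) D ≠ 0 := norm_pos_iff.1 (hδ0.trans hN.2.1)
    obtain ⟨es, hes⟩ := hchart (γ s) hN.1 hDne
    have htgt : w s ∈ e.target := (hρ (hball s hs)).2
    have h1 : HasFDerivAt e.symm (es.symm : (ι → ℂ) →L[ℂ] (ι → ℂ)) (w s) := by
      apply e.hasFDerivAt_symm htgt
      rw [hecoe]
      exact hes.hasFDerivAt
    have h2 : ‖(es.symm : (ι → ℂ) →L[ℂ] (ι → ℂ))‖ ≤ C := by
      apply h1.le_of_lipschitzOn (Metric.isOpen_ball.mem_nhds (hball s hs))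
      exact hlip.mono fun x hx => (hρ hx).1.1
    refine ⟨(es.symm : (ι → ℂ) →L[ℂ] (ι → ℂ)) (w1 - w0), ?_, ?_⟩
    · exact (h1.restrictScalars ℝ).comp_hasDerivAt s (hwd s)
    · exact (ContinuousLinearMap.le_opNorm _ _).trans
        (mul_le_mul_of_nonneg_right h2 (norm_nonneg _))
  choose! γ' hγ' hγ'b using hγd
  -- derivatives of values along the curve
  have hval : ∀ s ∈ Set.Icc (0 : ℝ) 1, ∀ x : R, HasDerivAt (fun s => ev (γ s) x)
      ((κ (γ s))⁻¹ * ∑ k, γ' s k * ev (γ s) (d k x)) s := by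
    intro s hs x
    obtain ⟨L, hL, hLk⟩ := hd (γ s) (hγN s hs).1 x
    have h1 := deriv_along (fun v => ev v x) L γ (γ' s) s hL.hasFDerivAt (hγ' s hs)
    convert! h1 using 1
    rw [Finset.mul_sum]
    apply Finset.sum_congr rfl
    intro k _
    rw [← hLk]
    have := hκ (γ s) (hγN s hs).1
    field_simp
  -- the functions h i vanish along the curve
  have hhz : ∀ s ∈ Set.Icc (0 : ℝ) 1, ∀ i, ∑ k, γ' s k * ev (γ s) (d k (h i)) = 0 := by
    intro s hs i
    have h1 := hval s hs (h i)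
    have h2 : (fun s => ev (γ s) (h i)) =ᶠ[𝓝 s] fun _ => 0 := by
      have h3 : ∀ᶠ s' in 𝓝 s, w s' ∈ e.target :=
        (hwd s).continuousAt.eventually_mem (e.open_target.mem_nhds (hρ (hball s hs)).2)
      filter_upwards [h3] with s' hs'
      have h4 : Ph ev h c (γ s') = w s' := by
        have := e.right_inv hs'
        rw [hecoe] at this
        exact this
      have h5 := congrFun h4 (c i)
      rw [Ph_col ev h c hcinj] at h5
      have h6 : w0 (c i) = 0 := by
        rw [hw0, Ph_col ev h c hcinj]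
        exact (hI _).1 (hhI i)
      have h7 : w1 (c i) = 0 := by
        rw [hw1, Ph_col ev h c hcinj]
        exact hbI i
      rw [h5, hw]
      simp only [Pi.add_apply, Pi.smul_apply, Pi.sub_apply, h6, h7, sub_zero, smul_zero, add_zero]
    have h3 := (h2.hasDerivAt_iff.1 h1).unique (hasDerivAt_const s (0 : ℂ))
    have hκs := hκ (γ s) (hγN s hs).1
    rcases mul_eq_zero.1 h3 with h4 | h4
    · exact absurd h4 (inv_ne_zero hκs)
    · exact h4
  -- reduction of a row to the ideal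
  have hred : ∀ s ∈ Set.Icc (0 : ℝ) 1, ∀ x : ι → R,
      ev (γ s) D * ∑ k, γ' s k * ev (γ s) (x k) = ∑ k, γ' s k * ev (γ s) (Ek A c x k) := by
    intro s hs x
    have h1 : ∀ k, γ' s k * ev (γ s) (Ek A c x k) = ev (γ s) D * (γ' s k * ev (γ s) (x k)) -
        ∑ i, ev (γ s) (yv A c x i) * (γ' s k * ev (γ s) (d k (h i))) := by
      intro k
      unfold Ek
      rw [map_sub, map_mul, map_sum, mul_sub, Finset.mul_sum]
      congr 1
      · rw [hD]; ring
      · apply Finset.sum_congr rfl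
        intro i _
        rw [map_mul, hA]
        simp only [Matrix.of_apply]
        ring
    simp_rw [h1]
    rw [Finset.sum_sub_distrib, ← Finset.mul_sum, Finset.sum_comm]
    simp_rw [← Finset.mul_sum, hhz s hs, mul_zero, Finset.sum_const_zero, sub_zero]
  -- the generators vanish along the curve
  set G : ℝ → Fin n → ℂ := fun s j => ev (γ s) (F j) with hG
  set G' : ℝ → Fin n → ℂ := fun s j => (κ (γ s))⁻¹ * ∑ k, γ' s k * ev (γ s) (d k (F j)) with hG'
  have hGd : ∀ s ∈ Set.Icc (0 : ℝ) 1, HasDerivAt G (G' s) s := by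
    intro s hs
    rw [hasDerivAt_pi]
    exact fun j => hval s hs (F j)
  set Cγ : ℝ := C * ‖w1 - w0‖ with hCγ
  have hCγ0 : 0 ≤ Cγ := by positivity
  set K : ℝ := δ'⁻¹ * (δ⁻¹ * ∑ j, ∑ k, ∑ l, Cγ * (‖ev a (co j k l)‖ + 1)) with hK
  have hbound : ∀ s ∈ Set.Icc (0 : ℝ) 1, ‖G' s‖ ≤ K * ‖G s‖ := by
    intro s hs
    have hN := hγN s hs
    have hK0 : 0 ≤ K := by positivity
    rw [pi_norm_le_iff_of_nonneg (by positivity)]
    intro j
    have hDs : 0 < ‖ev (γ s) D‖ := hδ0.trans hN.2.1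
    have h1 : ‖∑ k, γ' s k * ev (γ s) (d k (F j))‖ ≤
        δ⁻¹ * ((∑ k, ∑ l, Cγ * (‖ev a (co j k l)‖ + 1)) * ‖G s‖) := by
      have h2 := hred s hs (fun k => d k (F j))
      have h3 : ‖ev (γ s) D‖ * ‖∑ k, γ' s k * ev (γ s) (d k (F j))‖ ≤
          (∑ k, ∑ l, Cγ * (‖ev a (co j k l)‖ + 1)) * ‖G s‖ := by
        rw [← norm_mul, h2, Finset.sum_mul]
        refine (norm_sum_le _ _).trans (Finset.sum_le_sum fun k _ => ?_)
        rw [norm_mul, ← hco j k, map_sum, Finset.sum_mul]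
        calc ‖γ' s k‖ * ‖∑ l, ev (γ s) (co j k l * F l)‖
            ≤ ‖γ' s k‖ * ∑ l, ‖ev (γ s) (co j k l * F l)‖ :=
              mul_le_mul_of_nonneg_left (norm_sum_le _ _) (norm_nonneg _)
          _ = ∑ l, ‖γ' s k‖ * (‖ev (γ s) (co j k l)‖ * ‖G s l‖) := by
              rw [Finset.mul_sum]
              apply Finset.sum_congr rfl
              intro l _
              rw [map_mul, norm_mul]
          _ ≤ ∑ l, Cγ * (‖ev a (co j k l)‖ + 1) * ‖G s‖ := by
              apply Finset.sum_le_sum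
              intro l _
              rw [mul_assoc]
              apply mul_le_mul ((norm_le_pi_norm _ k).trans (hγ'b s hs)) _ (by positivity) hCγ0
              exact mul_le_mul (hN.2.2.2 j k l).le (norm_le_pi_norm _ l) (norm_nonneg _)
                (by positivity)
      rw [← div_eq_inv_mul, le_div_iff₀ hδ0, mul_comm]
      exact (mul_le_mul_of_nonneg_right hN.2.1.le (norm_nonneg _)).trans h3
    have h2 : ‖(κ (γ s))⁻¹‖ ≤ δ'⁻¹ := by
      rw [norm_inv, hκX (γ s) hN.1]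
      exact inv_anti₀ hδ'0 hN.2.2.1.le
    rw [hG']
    simp only
    rw [norm_mul]
    have h3 : (∑ k, ∑ l, Cγ * (‖ev a (co j k l)‖ + 1)) ≤
        ∑ j, ∑ k, ∑ l, Cγ * (‖ev a (co j k l)‖ + 1) :=
      Finset.single_le_sum (f := fun j => ∑ k, ∑ l, Cγ * (‖ev a (co j k l)‖ + 1))
        (fun i _ => by positivity) (Finset.mem_univ j)
    calc _ ≤ δ'⁻¹ * (δ⁻¹ * ((∑ k, ∑ l, Cγ * (‖ev a (co j k l)‖ + 1)) * ‖G s‖)) :=
          mul_le_mul h2 h1 (norm_nonneg _) (by positivity)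
      _ ≤ δ'⁻¹ * (δ⁻¹ * ((∑ j, ∑ k, ∑ l, Cγ * (‖ev a (co j k l)‖ + 1)) * ‖G s‖)) := by
          gcongr
      _ = K * ‖G s‖ := by rw [hK]; ring
  have hGz : ∀ s ∈ Set.Icc (0 : ℝ) 1, G s = 0 := by
    apply eq_zero_of_abs_deriv_le_mul_abs_self_of_eq_zero_right (f' := G') (K := K)
    · intro s hs
      exact (hGd s hs).continuousAt.continuousWithinAt
    · intro s hs
      exact (hGd s ⟨hs.1, hs.2.le⟩).hasDerivWithinAt
    · funext j
      rw [hG]
      simp only [hγ0, Pi.zero_apply]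
      exact (hI _).1 (hFI j)
    · intro s hs
      exact hbound s ⟨hs.1, hs.2.le⟩
  have hIz : ∀ s ∈ Set.Icc (0 : ℝ) 1, ∀ x ∈ I, ev (γ s) x = 0 := by
    intro s hs x hx
    rw [← hF, Submodule.mem_span_range_iff_exists_fun] at hx
    obtain ⟨l, hl⟩ := hx
    rw [← hl, map_sum]
    apply Finset.sum_eq_zero
    intro j _
    rw [smul_eq_mul, map_mul]
    have := congrFun (hGz s hs) j
    simp only [hG, Pi.zero_apply] at this
    rw [this, mul_zero]
  -- τ is constant along the curve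
  have hτd : ∀ s ∈ Set.Icc (0 : ℝ) 1, HasDerivAt (fun s => τ (γ s)) 0 s := by
    intro s hs
    have hN := hγN s hs
    obtain ⟨L, hL, hLk⟩ := hτ (γ s) hN.1
    have h1 := deriv_along τ L γ (γ' s) s hL.hasFDerivAt (hγ' s hs)
    convert! h1 using 1
    have h2 := hred s hs T
    have h3 : ∑ k, γ' s k * ev (γ s) (Ek A c T k) = 0 := by
      apply Finset.sum_eq_zero
      intro k _
      rw [hIz s hs _ (hstepB k), mul_zero]
    rw [h3] at h2
    have hDs : ev (γ s) D ≠ 0 := norm_pos_iff.1 (hδ0.trans hN.2.1)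
    have h4 : ∑ k, γ' s k * ev (γ s) (T k) = 0 := (mul_eq_zero.1 h2).resolve_left hDs
    simp_rw [hLk]
    have h5 : ∀ k, γ' s k * (u (γ s) * ev (γ s) (T k)) =
        u (γ s) * (γ' s k * ev (γ s) (T k)) := fun k => by ring
    simp_rw [h5]
    rw [← Finset.mul_sum, h4, mul_zero]
  have hfin := constant_of_has_deriv_right_zero (f := fun s => τ (γ s)) (a := 0) (b := 1)
    (fun s hs => (hτd s hs).continuousAt.continuousWithinAt)
    (fun s hs => (hτd s ⟨hs.1, hs.2.le⟩).hasDerivWithinAt) 1 (by norm_num)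
  simp only [hγ0, hγ1] at hfin
  exact hfin
end main

end Pool.Agent.EllSch.Transfer

namespace Pool.Agent.EllPR

open Pool.Agent.EllSch Pool.Agent.EllSch.Transfer

/-- If all the functions are effectively computable, then the values of `τ` at the points which
carry no vector field tangent to all the relations along which `τ` varies are primitive
recursive. -/
theorem transfer_pr {O : Set (ℕ → ℕ)} {ι : Type} [Fintype ι] [DecidableEq ι] (k0 : ι) (R : Type)
    [CommRing R] [IsNoetherianRing R] (ev : (ι → ℂ) → R →+* ℂ) (U : Set (ι → ℂ)) (hU : IsOpen U)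
    (d : ι → Derivation ℤ R R) (κ : (ι → ℂ) → ℂ) (hκ : ∀ a ∈ U, κ a ≠ 0)
    (X : ι → R) (hX : ∀ a ∈ U, ∀ k, ev a (X k) = a k)
    (hd : ∀ a ∈ U, ∀ T : R, ∃ L : (ι → ℂ) →L[ℂ] ℂ, HasStrictFDerivAt (fun v => ev v T) L a ∧
      ∀ k, κ a * L (Pi.single k 1) = ev a (d k T))
    (τ : (ι → ℂ) → ℂ) (T : ι → R) (u : (ι → ℂ) → ℂ)
    (hτ : ∀ a ∈ U, ∃ L : (ι → ℂ) →L[ℂ] ℂ, HasStrictFDerivAt τ L a ∧
      ∀ k, L (Pi.single k 1) = u a * ev a (T k))
    (hCA : ∀ a ∈ U, ∀ x : R, CA O (fun v => ev v x) a) (hτCA : ∀ a ∈ U, CA O τ a)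
    (a : ι → ℂ) (ha : a ∈ U) (hbad : ¬ ∃ q : ι → R,
      (∀ h : R, ev a h = 0 → ev a (∑ k, q k * d k h) = 0) ∧ ev a (∑ k, q k * T k) ≠ 0) :
    IsPR O (τ a) := by
  classical
  obtain ⟨r, h, c, D, hc, hh, hD, hchart, V, hV, hVτ⟩ := local_const' k0 ev U hU d κ hκ X hX hd τ T u
    hτ (RingHom.ker (ev a)) a ha (fun x => RingHom.mem_ker) hbad
  obtain ⟨ea, hea⟩ := hchart a ha hD
  set e := hea.toOpenPartialHomeomorph (Ph ev h c) with he
  have hecoe : (e : (ι → ℂ) → ι → ℂ) = Ph ev h c := hea.toOpenPartialHomeomorph_coe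
  have hea_src : a ∈ e.source := hea.mem_toOpenPartialHomeomorph_source
  have hea_tgt : Ph ev h c a ∈ e.target := hea.image_mem_toOpenPartialHomeomorph_target
  have hsymm_a : e.symm (Ph ev h c a) = a := by
    have := e.left_inv hea_src
    rw [hecoe] at this
    exact this
  have hcontD : ContinuousAt (fun v => ev v D) a := by
    obtain ⟨L, hL, _⟩ := hd a ha D
    exact hL.hasFDerivAt.continuousAt
  have hDev : ∀ᶠ v in 𝓝 a, ev v D ≠ 0 := hcontD.eventually_ne hD
  have hN : V ∩ U ∩ {v | ev v D ≠ 0} ∈ 𝓝 a :=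
    Filter.inter_mem (Filter.inter_mem hV (hU.mem_nhds ha)) hDev
  have hcs : ContinuousAt e.symm (Ph ev h c a) := e.continuousAt_symm hea_tgt
  have hpre : ∀ᶠ w in 𝓝 (Ph ev h c a), e.symm w ∈ V ∩ U ∩ {v | ev v D ≠ 0} := by
    apply hcs.eventually_mem
    rw [hsymm_a]
    exact hN
  obtain ⟨ρ, hρ0, hρ⟩ := Metric.mem_nhds_iff.1
    (Filter.inter_mem hpre (e.open_target.mem_nhds hea_tgt))
  -- a nearby point with rational free coordinates
  choose x hx using fun k => Pool.Agent.EllPR.T.exists_val_near (Ph ev h c a k) (half_pos hρ0)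
  let w : ι → ℂ := fun k => if ∃ i, c i = k then 0 else val (x k)
  have hwd : w ∈ Metric.ball (Ph ev h c a) ρ := by
    rw [Metric.mem_ball, dist_eq_norm]
    refine lt_of_le_of_lt ?_ (half_lt_self hρ0)
    rw [pi_norm_le_iff_of_nonneg (half_pos hρ0).le]
    intro k
    rw [Pi.sub_apply]
    by_cases hk : ∃ i, c i = k
    · have h1 : w k = 0 := if_pos hk
      obtain ⟨i, rfl⟩ := hk
      rw [h1, Ph_col ev h c hc, hh i, sub_zero, norm_zero]
      exact (half_pos hρ0).le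
    · have h1 : w k = val (x k) := if_neg hk
      rw [h1]
      exact (hx k).le
  have hw := hρ hwd
  set b := e.symm w with hb
  obtain ⟨⟨⟨hbV, hbU⟩, hbD⟩, htgt⟩ := hw
  have hPb : Ph ev h c b = w := by
    have := e.right_inv htgt
    rw [hecoe] at this
    exact this
  have hbh : ∀ i, ev b (h i) = 0 := by
    intro i
    rw [← Ph_col ev h c hc b i, hPb]
    exact if_pos ⟨i, rfl⟩
  rw [← hVτ b hbV hbU hbh]
  refine (hτCA b hbU).isPR fun k => ?_
  obtain ⟨eb, heb⟩ := hchart b hbU hbD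
  have hone : ∀ j k, IsPR O ((Pi.single j (1 : ℂ) : ι → ℂ) k) := by
    intro j k
    by_cases hjk : k = j
    · subst hjk; rw [Pi.single_eq_same]; exact IsPR.one
    · rw [Pi.single_eq_of_ne hjk]; exact IsPR.zero
  have hwPR : ∀ k, IsPR O (w k) := by
    intro k
    by_cases hk : ∃ i, c i = k
    · have h1 : w k = 0 := if_pos hk
      rw [h1]; exact IsPR.zero
    · have h1 : w k = val (x k) := if_neg hk
      rw [h1]; exact isPR_val _
  apply newton (G := fun v => Ph ev h c v - w) eb (heb.sub_const w) (by rw [hPb, sub_self])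
  intro k
  have h1 : (fun v : ι → ℂ => (Ph ev h c v - w) k) = fun v => v k +
      ∑ j, (ev v (h j) - v (c j)) * (Pi.single (c j) (1 : ℂ) : ι → ℂ) k - w k := by
    funext v
    simp only [Ph, Pi.sub_apply, Pi.add_apply, Finset.sum_apply, Pi.smul_apply, smul_eq_mul]
  rw [h1]
  refine ((CA.proj k b).add (CA.sum _ fun j _ => ?_)).sub (CA.const (hwPR k) b)
  exact ((hCA b hbU (h j)).sub (CA.proj (c j) b)).mul (CA.const (hone _ _) b)

end Pool.Agent.EllPR
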