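import Pool.Agent.EllSch.Final2
import Pool.Agent.EllPR.Sums
import Pool.Agent.EllPR.TransferPR

/-! # The main theorem outside the primitive recursive shapes -/

open MvPolynomial Cardinal

namespace Pool.Agent.EllPR

open Pool.Agent.EllSch

noncomputable section

variable {O : Set (ℕ → ℕ)} {n : ℕ}

theorem ca_nval {b : PIx n → ℂ} (hb : b ∈ UU n) (x : VIx n) : CA O (fun v => nval v x) b := by
  have ha : CA O (fun v : PIx n → ℂ => v (Sum.inl 0)) b := CA.proj _ b
  have hb1 : CA O (fun v : PIx n → ℂ => v (Sum.inl 1)) b := CA.proj _ b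
  rcases x with j | ⟨i, j⟩
  · fin_cases j
    · exact ha
    · exact hb1
    · exact ca_eta1 ha hb1 hb.1
    · exact ca_eta2 ha hb1 hb.1
    · exact ca_G2 ha hb1 hb.1
    · exact ca_G3 ha hb1 hb.1
  · have hp : CA O (fun v : PIx n → ℂ => v (Sum.inr i)) b := CA.proj _ b
    fin_cases j
    · exact hp
    · exact ca_wp ha hb1 hp hb.1 (hb.2 i)
    · exact ca_wq ha hb1 hp hb.1 (hb.2 i)
    · exact ca_wz ha hb1 hp hb.1 (hb.2 i)

theorem ca_nev {b : PIx n → ℂ} (hb : b ∈ UU n) (x : RR n) : CA O (fun v => nev v x) b := by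
  induction x using MvPolynomial.induction_on with
  | C c =>
    simp only [NumSetup.nev_C]
    exact CA.const (IsPR.ratCast c) b
  | add p q hp hq =>
    simp only [map_add]
    exact hp.add hq
  | mul_X p x hp =>
    simp only [map_mul, NumSetup.nev_X]
    exact hp.mul (ca_nval hb x)

/-- the point `v` carries a vector field tangent to all the relations along which `b / a` varies -/
def Var (n : ℕ) (v : PIx n → ℂ) : Prop := ∃ q : PIx n → RR n,
  (∀ h : RR n, nev v h = 0 → nev v (∑ k, q k * NumSetup.dd n k h) = 0) ∧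
  nev v (∑ k, q k * NumSetup.bk n k) ≠ 0

theorem num_setup_pt (n : ℕ) (v : PIx n → ℂ) (hq : Var n v) :
    ∃ (δ : Derivation ℤ (RR n) (RR n)) (α β : RR n) (γ : Fin n → RR n),
      (∀ h, nev v h = 0 → nev v (δ h) = 0) ∧ nev v β ≠ 0 ∧
      δ va = α * va + β * ve1 ∧ δ vb = α * vb + β * ve2 ∧
      δ ve1 = -(α * ve1) - β * (C (1 / 12) * vg2) * va ∧
      δ ve2 = -(α * ve2) - β * (C (1 / 12) * vg2) * vb ∧
      δ vg2 = -(4 * α * vg2) - 6 * β * vg3 ∧
      δ vg3 = -(6 * α * vg3) - β * (C (1 / 3) * vg2 ^ 2) ∧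
      ∀ i, δ (vp i) = α * vp i + β * vz i + γ i ∧
        δ (vx i) = -(2 * α * vx i) + β * (-(2 * vx i ^ 2) + C (1 / 3) * vg2) + γ i * vy i ∧
        δ (vy i) = -(3 * α * vy i) - 3 * β * vx i * vy i
          + γ i * (6 * vx i ^ 2 - C (1 / 2) * vg2) ∧
        δ (vz i) = -(α * vz i) + β * (C (1 / 2) * vy i - C (1 / 12) * vg2 * vp i)
          - γ i * vx i := by
  obtain ⟨q, hq1, hq2⟩ := hq
  set δ : Derivation ℤ (RR n) (RR n) := ∑ k, q k • NumSetup.dd n k with hδ
  have hδa : ∀ h, δ h = ∑ k, q k * NumSetup.dd n k h := by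
    intro h
    rw [hδ]
    exact NumSetup.sum_dd q h
  have hX : ∀ x, δ (X x) = NumSetup.gen (∑ k, q k * NumSetup.ak n k) (∑ k, q k * NumSetup.bk n k)
      (fun i => ∑ k, q k * NumSetup.gk n k i) x := by
    intro x
    rw [hδa]
    simp only [NumSetup.dd_X]
    exact NumSetup.sum_gen _ _ _ _ _
  refine ⟨δ, ∑ k, q k * NumSetup.ak n k, ∑ k, q k * NumSetup.bk n k,
    fun i => ∑ k, q k * NumSetup.gk n k i, ?_, hq2, ?_⟩
  · intro h hh
    rw [hδa]
    exact hq1 h hh
  · have e0 := hX (Sum.inl 0)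
    have e1 := hX (Sum.inl 1)
    have e2 := hX (Sum.inl 2)
    have e3 := hX (Sum.inl 3)
    have e4 := hX (Sum.inl 4)
    have e5 := hX (Sum.inl 5)
    refine ⟨e0.trans ?_, e1.trans ?_, e2.trans ?_, e3.trans ?_, e4.trans ?_, e5.trans ?_, ?_⟩
    · simp only [NumSetup.gen, NumSetup.gA, NumSetup.gB, NumSetup.gG, Sum.elim_inl,
        Matrix.cons_val]
      ring
    · simp only [NumSetup.gen, NumSetup.gA, NumSetup.gB, NumSetup.gG, Sum.elim_inl,
        Matrix.cons_val]
      ring
    · simp only [NumSetup.gen, NumSetup.gA, NumSetup.gB, NumSetup.gG, Sum.elim_inl,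
        Matrix.cons_val]
      ring
    · simp only [NumSetup.gen, NumSetup.gA, NumSetup.gB, NumSetup.gG, Sum.elim_inl,
        Matrix.cons_val]
      ring
    · simp only [NumSetup.gen, NumSetup.gA, NumSetup.gB, NumSetup.gG, Sum.elim_inl,
        Matrix.cons_val]
      ring
    · simp only [NumSetup.gen, NumSetup.gA, NumSetup.gB, NumSetup.gG, Sum.elim_inl,
        Matrix.cons_val]
      ring
    · intro i
      refine ⟨(hX (Sum.inr (i, 0))).trans ?_, (hX (Sum.inr (i, 1))).trans ?_,
        (hX (Sum.inr (i, 2))).trans ?_, (hX (Sum.inr (i, 3))).trans ?_⟩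
      · simp only [NumSetup.gen, NumSetup.gA, NumSetup.gB, NumSetup.gG, Sum.elim_inr,
          Matrix.cons_val]
        ring
      · simp only [NumSetup.gen, NumSetup.gA, NumSetup.gB, NumSetup.gG, Sum.elim_inr,
          Matrix.cons_val]
        ring
      · simp only [NumSetup.gen, NumSetup.gA, NumSetup.gB, NumSetup.gG, Sum.elim_inr,
          Matrix.cons_val]
        ring
      · simp only [NumSetup.gen, NumSetup.gA, NumSetup.gB, NumSetup.gG, Sum.elim_inr,
          Matrix.cons_val]
        ring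


theorem num_field_pt (n : ℕ) (v : PIx n → ℂ) (hv : v ∈ UU n) (hq : Var n v) :
    ∃ (K : Type) (_ : Field K) (_ : Algebra ℂ K) (D : Derivation ℂ K K) (φ : RR n →+* K),
      (∀ x, D x = 0 → x ∈ Set.range (algebraMap ℂ K)) ∧ (∀ h, φ h = 0 ↔ nev v h = 0) ∧
      be (φ vg2) (φ vg3) D ≠ 0 ∧ nab (φ vg2) (φ vg3) D (φ va, φ ve1) = 0 ∧
      nab (φ vg2) (φ vg3) D (φ vb, φ ve2) = 0 ∧
      ∀ i, nev v (vy i) ≠ 0 → nab (φ vg2) (φ vg3) D (φ (vp i), φ (vz i)) =
        src (φ vg2) (φ vg3) (φ (vx i)) (φ (vy i)) D := by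
  obtain ⟨δ, α, β, γ, hker, hβ, ea, eb, e1, e2, eg2, eg3, ep⟩ := num_setup_pt n v hq
  obtain ⟨ψ, -, hψD, hψ0⟩ := taylor (RR n) (nev v) δ hker
  obtain ⟨K, iF, iA, D, ι, hι, hιD, hconst⟩ := exists_diffField
  have : CharZero K := charZero_of_injective_algebraMap (algebraMap ℂ K).injective
  let φ : RR n →+* K := (ι : PowerSeries ℂ →+* K).comp ψ
  have hφ0 : ∀ h, φ h = 0 ↔ nev v h = 0 := by
    intro h
    rw [← hψ0 h]
    change ι (ψ h) = 0 ↔ _
    rw [map_eq_zero_iff ι hι]
  have hφD : ∀ h, D (φ h) = φ (δ h) := by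
    intro h
    have h1 := hψD h
    have h2 := hιD (ψ h)
    exact h2.trans (congrArg ι h1.symm)
  have hC : ∀ c : ℚ, φ (C c) = (c : K) := fun c => NumK.map_C φ c
  have hΔ : φ vg2 ^ 3 - 27 * φ vg3 ^ 2 ≠ 0 := by
    have h1 : φ (vg2 ^ 3 - 27 * vg3 ^ 2) = φ vg2 ^ 3 - 27 * φ vg3 ^ 2 := by
      simp only [map_sub, map_mul, map_pow, map_ofNat]
    rw [← h1]
    intro h
    rw [hφ0] at h
    simp only [map_sub, map_mul, map_pow, map_ofNat, NumSetup.nev_vg2, NumSetup.nev_vg3] at h
    exact disc_ne_zero hv.1 h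
  have d2 : D (φ vg2) = -4 * φ α * φ vg2 - 6 * φ β * φ vg3 := by
    rw [hφD, eg2]
    simp only [map_sub, map_mul, map_neg, map_ofNat]
    ring
  have d3 : D (φ vg3) = -6 * φ α * φ vg3 - φ β * φ vg2 ^ 2 / 3 := by
    rw [hφD, eg3]
    simp only [map_sub, map_mul, map_neg, map_ofNat, map_pow, hC]
    push_cast
    ring
  obtain ⟨hal, hbe⟩ := al_be_unique hΔ d2 d3
  refine ⟨K, iF, iA, D, φ, hconst, hφ0, ?_, ?_, ?_, ?_⟩
  · rw [hbe]
    intro h
    exact hβ ((hφ0 _).1 h)
  · unfold nab
    rw [hal, hbe]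
    ext
    · simp only [hφD, ea, map_add, map_mul, Prod.fst_zero]
      ring
    · simp only [hφD, e1, map_sub, map_mul, map_neg, hC, Prod.snd_zero]
      push_cast
      ring
  · unfold nab
    rw [hal, hbe]
    ext
    · simp only [hφD, eb, map_add, map_mul, Prod.fst_zero]
      ring
    · simp only [hφD, e2, map_sub, map_mul, map_neg, hC, Prod.snd_zero]
      push_cast
      ring
  · intro i hy
    have hy' : φ (vy i) ≠ 0 := by
      intro h
      exact hy ((hφ0 _).1 h)
    obtain ⟨p1, p2, p3, p4⟩ := ep i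
    have hga : ga (φ vg2) (φ vg3) (φ (vx i)) (φ (vy i)) D = φ (γ i) := by
      unfold ga
      rw [hal, hbe, hφD, p2]
      simp only [map_add, map_mul, map_neg, map_pow, map_ofNat, hC]
      push_cast
      field_simp
      ring
    unfold nab src
    rw [hal, hbe, hga]
    ext
    · simp only [hφD, p1, map_add, map_mul]
      ring
    · simp only [hφD, p4, map_sub, map_add, map_mul, map_neg, hC]
      push_cast
      ring


/-- **Main theorem** at a point. -/
theorem core2_pt (n : ℕ) (v : PIx n → ℂ) (hv : v ∈ UU n) (hq : Var n v)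
    (hp : ∀ m : Fin n → ℤ, ∑ i, (m i : ℂ) * v (Sum.inr i) = 0 → m = 0) :
    ∃ s : Finset (EIx n), 2 * n + 1 ≤ s.card ∧
      AlgebraicIndependent ℚ (fun i : s => nev v (ee n i)) := by
  classical
  obtain ⟨K, iK, iA, D, φ, hconst, h0, hβ, h1, h2, h3⟩ := num_field_pt n v hv hq
  have H : Good D φ v := ⟨hv, hconst, h0, hβ, h1, h2, h3⟩
  obtain ⟨s, hs1, hs2⟩ := exists_max (fun i => φ (ee n i))
  obtain ⟨r, f, hf, hrank, hcase⟩ := rank_split hv.1 (fun i => v (Sum.inr i)) hp
  have hnum := indep_transfer (nev v) φ h0 (fun i : s => ee n i) hs1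
  rcases hcase with hr | ⟨hr, k, x, hx, hk⟩ | ⟨hr, k, k', x, x', hx, hk, hk'⟩
  · subst hr
    refine ⟨s, ?_, hnum⟩
    have hb : Function.Bijective f := Finite.injective_iff_bijective.1 hf
    refine H.case0 (fun m x hm => ?_) s hs2
    have h4 := hrank (m ∘ f) x (by
      rw [← hm]
      exact Function.Bijective.sum_comp hb (fun k => (m k : ℂ) * v (Sum.inr k)))
    funext k
    obtain ⟨j, rfl⟩ := hb.2 k
    exact congrFun h4 j
  · exact ⟨s, H.case1 hr f hrank k x hx hk s hs2, hnum⟩
  · have hcard := H.case2 hr f hrank k k' x x' hx hk hk' s hs2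
    have hcz : CharZero K := (RingHom.charZero_iff (algebraMap ℂ K).injective).1 inferInstance
    -- the Legendre determinant
    let dt : RR n := va * ve2 - vb * ve1
    have hdt : nev v dt = v (Sum.inl 0) * eta2 (v (Sum.inl 0)) (v (Sum.inl 1)) -
        v (Sum.inl 1) * eta1 (v (Sum.inl 0)) (v (Sum.inl 1)) := by
      simp only [dt, map_sub, map_mul, NumSetup.nev_va, NumSetup.nev_vb, NumSetup.nev_ve1,
        NumSetup.nev_ve2]
    have hdtr : Transcendental ℚ (nev v dt) := by
      rw [hdt]; exact Final2.transcendental_det hv.1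
    obtain ⟨c, hc⟩ := H.legendre
    have hφdt : φ dt = algebraMap ℂ K c := by
      rw [← hc]
      simp only [dt, map_sub, map_mul]
    have hctr : Transcendental ℚ c := by
      intro h4
      apply hdtr
      obtain ⟨P, hP0, hP⟩ := h4
      refine ⟨P, hP0, ?_⟩
      have e1 : Polynomial.aeval (nev v dt) P = nev v (Polynomial.aeval dt P) := by
        have := Polynomial.aeval_algHom_apply ((nev v).toRatAlgHom) dt P
        exact this
      have e2 : Polynomial.aeval (φ dt) P = φ (Polynomial.aeval dt P) := by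
        have := Polynomial.aeval_algHom_apply (φ.toRatAlgHom) dt P
        exact this
      rw [e1, ← h0, ← e2, hφdt]
      rw [Polynomial.aeval_algebraMap_apply, hP, map_zero]
    have hopt := Final2.option_indep hctr hs1
    -- transfer to the numbers
    have hopt2 : AlgebraicIndependent ℚ (fun o : Option s => nev v (o.elim dt (fun i => ee n i))) := by
      rw [algebraicIndependent_iff] at hopt ⊢
      intro P hP
      apply hopt
      have e1 : (fun o : Option s => o.elim (algebraMap ℂ K c) (fun i : s => φ (ee n i))) =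
          fun o : Option s => φ (o.elim dt (fun i => ee n i)) := by
        funext o
        cases o with
        | none => exact hφdt.symm
        | some i => rfl
      rw [e1, aeval_comp_hom, h0, ← aeval_comp_hom]
      exact hP
    -- counting
    obtain ⟨s', hs1', hs2'⟩ := Final2.exists_max2 (E := ℚ) (fun i => nev v (ee n i))
    refine ⟨s', ?_, hs1'⟩
    have hle := Final2.card_le (fun i => nev v (ee n i)) s' _ hopt2 (fun o => ?_)
    · rw [Fintype.card_option, Fintype.card_coe] at hle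
      omega
    cases o with
    | some i => exact hs2' i
    | none =>
      -- the determinant is algebraic over the numbers
      show IsAlgebraic _ (nev v dt)
      let G : Subfield ℂ := (algebraicClosure (IntermediateField.adjoin ℚ
        ((fun i => nev v (ee n i)) '' s')) ℂ).toSubfield
      have memG : ∀ x, x ∈ G ↔ IsAlgebraic (IntermediateField.adjoin ℚ
        ((fun i => nev v (ee n i)) '' s')) x := fun x => mem_algebraicClosure_iff
      rw [← memG]
      have hFG : ∀ x, x ∈ FF v → x ∈ G := by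
        intro x hx
        rw [mem_FF] at hx
        have hle : IntermediateField.adjoin ℚ (nev v '' (Set.range (ee n))) ≤
            (algebraicClosure (IntermediateField.adjoin ℚ
              ((fun i => nev v (ee n i)) '' s')) ℂ).restrictScalars ℚ := by
          rw [IntermediateField.adjoin_le_iff]
          rintro _ ⟨_, ⟨i, rfl⟩, rfl⟩
          exact (memG _).2 (hs2' i)
        have hx' : IsAlgebraic ((algebraicClosure (IntermediateField.adjoin ℚ
              ((fun i => nev v (ee n i)) '' s')) ℂ)) x :=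
          hx.ringHom_of_comp_eq (IntermediateField.inclusion hle).toRingHom (RingHom.id ℂ)
            (IntermediateField.inclusion hle).injective rfl
        rw [memG]
        exact hx'.restrictScalars _
      -- periods and quasi-periods
      have hper : ∀ (k : Fin n → ℤ) (x : ℤ × ℤ),
          ∑ i, (k i : ℂ) * v (Sum.inr i) = lat (v (Sum.inl 0)) (v (Sum.inl 1)) x →
          lat (v (Sum.inl 0)) (v (Sum.inl 1)) x ∈ G ∧ eta (v (Sum.inl 0)) (v (Sum.inl 1)) x ∈ G := by
        intro k x hk
        refine ⟨?_, hFG _ (eta_mem_FF hv k x hk)⟩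
        rw [← hk]
        refine sum_mem fun i _ => mul_mem (intCast_mem _ _) (hFG _ ?_)
        have := gen_mem_FF v (Sum.inr (0, i))
        rwa [show ee n (Sum.inr (0, i)) = vp i from rfl, NumSetup.nev_vp] at this
      obtain ⟨p1, p2⟩ := hper k x hk
      obtain ⟨q1, q2⟩ := hper k' x' hk'
      have hd : (x.1 : ℂ) * x'.2 - x.2 * x'.1 ≠ 0 := by exact_mod_cast hx
      have e : nev v dt = (lat (v (Sum.inl 0)) (v (Sum.inl 1)) x * eta (v (Sum.inl 0)) (v (Sum.inl 1)) x' -
          lat (v (Sum.inl 0)) (v (Sum.inl 1)) x' * eta (v (Sum.inl 0)) (v (Sum.inl 1)) x) /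
          ((x.1 : ℂ) * x'.2 - x.2 * x'.1) := by
        rw [hdt, eq_div_iff hd]
        simp only [lat, eta]
        ring
      rw [e]
      exact div_mem (sub_mem (mul_mem p1 q2) (mul_mem q1 p2))
        (sub_mem (mul_mem (intCast_mem _ _) (intCast_mem _ _))
          (mul_mem (intCast_mem _ _) (intCast_mem _ _)))


theorem var_or_pr (n : ℕ) (v : PIx n → ℂ) (hv : v ∈ UU n) :
    Var n v ∨ IsPR O (v (Sum.inl 1) / v (Sum.inl 0)) := by
  classical
  by_cases hq : Var n v
  · exact Or.inl hq
  · right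
    exact transfer_pr (O := O) (Sum.inl 0) (RR n) (nev (n := n)) (UU n) NumSetup.isOpen_UU
      (NumSetup.dd n) (fun v => det (v (Sum.inl 0)) (v (Sum.inl 1))) (fun v hv => det_ne_zero hv.1)
      (Sum.elim ![va, vb] vp) (NumSetup.nev_coord) (fun v hv T => NumSetup.strict hv T)
      (fun v => v (Sum.inl 1) / v (Sum.inl 0)) (NumSetup.bk n) (fun v => 1 / v (Sum.inl 0) ^ 2)
      (fun v hv => NumSetup.strict_tau hv) (fun v hv x => ca_nev hv x)
      (fun v hv => (CA.proj _ v).div (CA.proj _ v) (by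
        intro h0
        apply hv.1
        rw [h0]; simp)) v hv hq

end

end Pool.Agent.EllPR
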